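import Mathlib

set_option autoImplicit false

/-! Counting functions of finite automata. -/

namespace Pool.Agent.H448R4

/-- number of accepted labellings of a word -/
def cntW {α σ Γ : Type} [Fintype Γ] (δ : σ → α → Γ → σ) (F : σ → Bool) : List α → σ → ℕ
  | [], q => if F q = true then 1 else 0
  | a :: w, q => ∑ γ : Γ, cntW δ F w (δ q a γ)

/-- counting-regular functions -/
def CR {α : Type} (f : List α → ℕ) : Prop :=
  ∃ (σ Γ : Type) (_ : Fintype σ) (_ : Fintype Γ) (q0 : σ) (δ : σ → α → Γ → σ) (F : σ → Bool),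
    ∀ w : List α, w ≠ [] → cntW δ F w q0 = f w

theorem CR.congr {α : Type} {f g : List α → ℕ} (h : CR f) (hfg : ∀ w, f w = g w) : CR g := by
  obtain ⟨σ, Γ, i1, i2, q0, δ, F, h⟩ := h
  exact ⟨σ, Γ, i1, i2, q0, δ, F, fun w hw => by rw [h w hw, hfg]⟩

theorem CR.zero {α : Type} : CR (fun _ : List α => 0) := by
  refine ⟨Unit, Unit, inferInstance, inferInstance, (), fun _ _ _ => (), fun _ => false, ?_⟩
  intro w _
  induction w with
  | nil => simp [cntW]
  | cons a w ih => 
    by_cases hw : w = []
    · subst hw; simp [cntW]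
    · simp only [cntW, Finset.univ_unique, Finset.sum_singleton]; exact ih hw

theorem CR.one {α : Type} : CR (fun _ : List α => 1) := by
  refine ⟨Unit, Unit, inferInstance, inferInstance, (), fun _ _ _ => (), fun _ => true, ?_⟩
  intro w _
  induction w with
  | nil => simp [cntW]
  | cons a w ih => 
    by_cases hw : w = []
    · subst hw; simp [cntW]
    · simp only [cntW, Finset.univ_unique, Finset.sum_singleton]; exact ih hw

/-- transition function for counting occurrences -/
def occδ {α : Type} [DecidableEq α] (a0 : α) : Option Bool → α → Bool → Option Bool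
  | none, _, _ => none
  | some true, _, true => none
  | some true, _, false => some true
  | some false, _, false => some false
  | some false, a, true => if a = a0 then some true else none

theorem CR.occ {α : Type} [DecidableEq α] (a0 : α) : CR (fun w : List α => w.count a0) := by
  refine ⟨Option Bool, Bool, inferInstance, inferInstance, some false, occδ a0,
    fun q => q == some true, ?_⟩
  have h1 : ∀ w : List α, cntW (occδ a0) (fun q => q == some true) w none = 0 := by
    intro w
    induction w with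
    | nil => simp [cntW]
    | cons a w ih =>
      have e : ∀ γ, occδ a0 none a γ = none := fun γ => rfl
      simp only [cntW, e, ih]
      simp
  have h2 : ∀ w : List α, cntW (occδ a0) (fun q => q == some true) w (some true) = 1 := by
    intro w
    induction w with
    | nil => simp [cntW]
    | cons a w ih =>
      have e1 : occδ a0 (some true) a true = none := rfl
      have e2 : occδ a0 (some true) a false = some true := rfl
      simp only [cntW, Fintype.sum_bool, e1, e2, ih, h1]
  have h3 : ∀ w : List α, cntW (occδ a0) (fun q => q == some true) w (some false) =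
      w.count a0 := by
    intro w
    induction w with
    | nil => simp [cntW]
    | cons a w ih =>
      have e1 : occδ a0 (some false) a true = if a = a0 then some true else none := rfl
      have e2 : occδ a0 (some false) a false = some false := rfl
      simp only [cntW, Fintype.sum_bool, e1, e2, ih]
      rw [List.count_cons]
      by_cases ha : a = a0
      · simp only [ha, if_true, h2, beq_self_eq_true]; omega
      · have : (a == a0) = false := by simp [ha]
        simp only [ha, if_false, h1, this]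
        simp
  exact fun w _ => h3 w

/-- transition function for sums -/
def addδ {α σ₁ σ₂ Γ₁ Γ₂ : Type} (q1 : σ₁) (q2 : σ₂) (δ1 : σ₁ → α → Γ₁ → σ₁)
    (δ2 : σ₂ → α → Γ₂ → σ₂) : Option (Option (σ₁ ⊕ σ₂)) → α → Γ₁ ⊕ Γ₂ → Option (Option (σ₁ ⊕ σ₂))
  | none, _, _ => none
  | some none, a, .inl γ => some (some (.inl (δ1 q1 a γ)))
  | some none, a, .inr γ => some (some (.inr (δ2 q2 a γ)))
  | some (some (.inl q)), a, .inl γ => some (some (.inl (δ1 q a γ)))
  | some (some (.inl _)), _, .inr _ => none
  | some (some (.inr q)), a, .inr γ => some (some (.inr (δ2 q a γ)))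
  | some (some (.inr _)), _, .inl _ => none

/-- accepting states for sums -/
def addF {σ₁ σ₂ : Type} (F1 : σ₁ → Bool) (F2 : σ₂ → Bool) : Option (Option (σ₁ ⊕ σ₂)) → Bool
  | some (some (.inl q)) => F1 q
  | some (some (.inr q)) => F2 q
  | _ => false

theorem CR.add {α : Type} {f g : List α → ℕ} (hf : CR f) (hg : CR g) :
    CR (fun w => f w + g w) := by
  obtain ⟨σ₁, Γ₁, i1, i2, q1, δ1, F1, h1⟩ := hf
  obtain ⟨σ₂, Γ₂, i3, i4, q2, δ2, F2, h2⟩ := hg
  refine ⟨Option (Option (σ₁ ⊕ σ₂)), Γ₁ ⊕ Γ₂, inferInstance, inferInstance, some none,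
    addδ q1 q2 δ1 δ2, addF F1 F2, ?_⟩
  have a0 : ∀ w : List α, cntW (addδ q1 q2 δ1 δ2) (addF F1 F2) w none = 0 := by
    intro w
    induction w with
    | nil => simp [cntW, addF]
    | cons a w ih =>
      have e : ∀ γ, addδ q1 q2 δ1 δ2 none a γ = none := fun γ => rfl
      simp only [cntW, e, ih, Finset.sum_const_zero]
  have a1 : ∀ (w : List α) (q : σ₁), cntW (addδ q1 q2 δ1 δ2) (addF F1 F2) w
      (some (some (.inl q))) = cntW δ1 F1 w q := by
    intro w
    induction w with
    | nil => intro q; simp [cntW, addF]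
    | cons a w ih =>
      intro q
      have e1 : ∀ γ, addδ q1 q2 δ1 δ2 (some (some (.inl q))) a (.inl γ) =
        some (some (.inl (δ1 q a γ))) := fun γ => rfl
      have e2 : ∀ γ, addδ q1 q2 δ1 δ2 (some (some (.inl q))) a (.inr γ) = none := fun γ => rfl
      simp only [cntW, Fintype.sum_sum_type, e1, e2, ih, a0, Finset.sum_const_zero, add_zero]
  have a2 : ∀ (w : List α) (q : σ₂), cntW (addδ q1 q2 δ1 δ2) (addF F1 F2) w
      (some (some (.inr q))) = cntW δ2 F2 w q := by
    intro w
    induction w with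
    | nil => intro q; simp [cntW, addF]
    | cons a w ih =>
      intro q
      have e1 : ∀ γ, addδ q1 q2 δ1 δ2 (some (some (.inr q))) a (.inr γ) =
        some (some (.inr (δ2 q a γ))) := fun γ => rfl
      have e2 : ∀ γ, addδ q1 q2 δ1 δ2 (some (some (.inr q))) a (.inl γ) = none := fun γ => rfl
      simp only [cntW, Fintype.sum_sum_type, e1, e2, ih, a0, Finset.sum_const_zero, zero_add]
  intro w hw
  show _ = f w + g w
  rw [← h1 w hw, ← h2 w hw]
  cases w with
  | nil => exact absurd rfl hw
  | cons a w =>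
    have e1 : ∀ γ, addδ q1 q2 δ1 δ2 (some none) a (.inl γ) =
      some (some (.inl (δ1 q1 a γ))) := fun γ => rfl
    have e2 : ∀ γ, addδ q1 q2 δ1 δ2 (some none) a (.inr γ) =
      some (some (.inr (δ2 q2 a γ))) := fun γ => rfl
    simp only [cntW, Fintype.sum_sum_type, e1, e2, a1, a2]

theorem CR.mul {α : Type} {f g : List α → ℕ} (hf : CR f) (hg : CR g) :
    CR (fun w => f w * g w) := by
  obtain ⟨σ₁, Γ₁, i1, i2, q1, δ1, F1, h1⟩ := hf
  obtain ⟨σ₂, Γ₂, i3, i4, q2, δ2, F2, h2⟩ := hg
  refine ⟨σ₁ × σ₂, Γ₁ × Γ₂, inferInstance, inferInstance, (q1, q2),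
    fun q a γ => (δ1 q.1 a γ.1, δ2 q.2 a γ.2), fun q => F1 q.1 && F2 q.2, ?_⟩
  have key : ∀ (w : List α) (p : σ₁) (q : σ₂),
      cntW (fun (q : σ₁ × σ₂) a (γ : Γ₁ × Γ₂) => (δ1 q.1 a γ.1, δ2 q.2 a γ.2))
        (fun q => F1 q.1 && F2 q.2) w (p, q) = cntW δ1 F1 w p * cntW δ2 F2 w q := by
    intro w
    induction w with
    | nil =>
      intro p q
      simp only [cntW, Bool.and_eq_true]
      by_cases hp : F1 p = true <;> by_cases hq : F2 q = true <;> simp [hp, hq]
    | cons a w ih =>
      intro p q
      simp only [cntW, ih, Fintype.sum_prod_type, Finset.sum_mul_sum]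
  intro w hw
  rw [key, h1 w hw, h2 w hw]

theorem CR.const {α : Type} (n : ℕ) : CR (fun _ : List α => n) := by
  induction n with
  | zero => exact CR.zero
  | succ n ih => exact ih.add CR.one

/-- polynomials are differences of counting-regular functions -/
theorem cr_poly {V : Type} (p : Poly V) : ∃ A B : (V → ℕ) → ℕ, (∀ v, p v = (A v : ℤ) - B v) ∧
    ∀ {α : Type} (F : V → List α → ℕ), (∀ i, CR (F i)) →
      CR (fun w => A (fun i => F i w)) ∧ CR (fun w => B (fun i => F i w)) := by
  induction p using Poly.induction with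
  | H1 i =>
    exact ⟨fun v => v i, fun _ => 0, fun v => by simp, fun F hF => ⟨hF i, CR.zero⟩⟩
  | H2 n =>
    refine ⟨fun _ => n.toNat, fun _ => (-n).toNat, fun v => ?_, fun F _ => ⟨CR.const _, CR.const _⟩⟩
    rw [Poly.const_apply]
    show n = ((n.toNat : ℕ) : ℤ) - ((-n).toNat : ℕ)
    omega
  | H3 f g hf hg =>
    obtain ⟨A, B, h, hc⟩ := hf
    obtain ⟨A', B', h', hc'⟩ := hg
    refine ⟨fun v => A v + B' v, fun v => B v + A' v, fun v => ?_, fun F hF => ?_⟩
    · rw [Poly.sub_apply, h, h']; push_cast; ring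
    · exact ⟨(hc F hF).1.add (hc' F hF).2, (hc F hF).2.add (hc' F hF).1⟩
  | H4 f g hf hg =>
    obtain ⟨A, B, h, hc⟩ := hf
    obtain ⟨A', B', h', hc'⟩ := hg
    refine ⟨fun v => A v * A' v + B v * B' v, fun v => A v * B' v + B v * A' v, fun v => ?_,
      fun F hF => ?_⟩
    · rw [Poly.mul_apply, h, h']; push_cast; ring
    · exact ⟨((hc F hF).1.mul (hc' F hF).1).add ((hc F hF).2.mul (hc' F hF).2),
        ((hc F hF).1.mul (hc' F hF).2).add ((hc F hF).2.mul (hc' F hF).1)⟩

end Pool.Agent.H448R4
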