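import Pool.Agent.H448R4.NfaB

set_option autoImplicit false

/-! The completeness part. -/

namespace Pool.Agent.H448R4

open Set Pool.Agent.H448R3

attribute [-instance] Sum.instBEq

/-- pairs of automata -/
abbrev PT : Type := (Finset (ℕ × ℕ × ℕ) × ℕ × Finset ℕ) ×
  (Finset (ℕ × (Option ℕ × Option ℕ) × ℕ) × ℕ × Finset ℕ)

/-- the domain -/
def domP (p : PT) : Set (List ℕ) :=
  {w | w ∈ (⟨fun q a => {q' | (q, a, q') ∈ p.1.1}, {p.1.2.1}, (p.1.2.2 : Set ℕ)⟩ :
    NFA ℕ ℕ).accepts}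

/-- the convolution -/
def cv (u v : List ℕ) : List (Option ℕ × Option ℕ) :=
  List.map (fun i => (u[i]?, v[i]?)) (List.range (max u.length v.length))

/-- the relation -/
def relP (p : PT) (u v : List ℕ) : Prop :=
  cv u v ∈ (⟨fun q a => {q' | (q, a, q') ∈ p.2.1}, {p.2.2.1}, (p.2.2.2 : Set ℕ)⟩ :
    NFA (Option ℕ × Option ℕ) ℕ).accepts

theorem tab {X β : Type} {n : ℕ} (e : X ≃ Fin n) (f : X → β) (d : β) :
    ∃ t : List β, ∀ x, t.getD (e x : ℕ) d = f x := by
  refine ⟨(List.finRange n).map fun i => f (e.symm i), fun x => ?_⟩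
  rw [List.getD_eq_getElem?_getD]
  simp

section

variable {δ : Type} [DecidableEq δ]

/-- kinds of words -/
abbrev Kd : Type := Fin 3 × Bool × Bool

/-- the kind of a word -/
def kk (w : List (Fin 12 ⊕ δ)) : Kd :=
  (⟨min (w.count (Sum.inl 2)) 2, by omega⟩, decide (1 ≤ w.count (Sum.inl 3)),
    decide (1 ≤ w.count (Sum.inl 4)))

/-- one step for kinds -/
def kstep (k : Kd) (a : Fin 12 ⊕ δ) : Kd :=
  (if a = Sum.inl 2 then ⟨min (k.1 + 1) 2, by omega⟩ else k.1,
    k.2.1 || decide (a = Sum.inl 3), k.2.2 || decide (a = Sum.inl 4))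

theorem count_snoc {α : Type} [DecidableEq α] (w : List α) (a b : α) :
    (w ++ [a]).count b = w.count b + if a = b then 1 else 0 := by
  rw [List.count_append, List.count_singleton]
  congr 1
  by_cases h : a = b <;> simp [h]

theorem kk_snoc (w : List (Fin 12 ⊕ δ)) (a : Fin 12 ⊕ δ) : kk (w ++ [a]) = kstep (kk w) a := by
  unfold kk kstep
  simp only [count_snoc]
  refine Prod.ext ?_ (Prod.ext ?_ ?_)
  · simp only
    apply Fin.ext
    by_cases h : a = Sum.inl 2
    · simp only [h, if_true]; omega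
    · simp only [h, if_false]; omega
  · simp only
    by_cases h : a = Sum.inl 3
    · simp [h]
    · simp [h]
  · simp only
    by_cases h : a = Sum.inl 4
    · simp [h]
    · simp [h]

/-- accepting kinds -/
def kmain (k : Kd) : Bool := decide (k.1 = 1) && (!k.2.1 && !k.2.2)
/-- accepting kinds -/
def kjunk (k : Kd) : Bool := decide (k.1 = 0) && ((k.2.1 && !k.2.2) || (!k.2.1 && k.2.2))

theorem kmain_iff (w : List (Fin 12 ⊕ δ)) : kmain (kk w) = true ↔
    w.count (Sum.inl 2) = 1 ∧ w.count (Sum.inl 3) = 0 ∧ w.count (Sum.inl 4) = 0 := by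
  unfold kmain kk
  simp only [Bool.and_eq_true, decide_eq_true_eq, Bool.not_eq_true', decide_eq_false_iff_not,
    Fin.ext_iff]
  have : ((1 : Fin 3) : ℕ) = 1 := rfl
  rw [this]
  omega

theorem kjunk_iff (w : List (Fin 12 ⊕ δ)) : kjunk (kk w) = true ↔
    junkC (w.count (Sum.inl 2)) (w.count (Sum.inl 3)) (w.count (Sum.inl 4)) := by
  unfold kjunk kk junkC
  simp only [Bool.and_eq_true, Bool.or_eq_true, decide_eq_true_eq, Bool.not_eq_true',
    decide_eq_false_iff_not, Fin.ext_iff]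
  have : ((0 : Fin 3) : ℕ) = 0 := rfl
  rw [this]
  omega

variable (A B : ((Unit ⊕ δ) → ℕ) → ℕ)

/-- the size of a word -/
def szw (w : List (Fin 12 ⊕ δ)) : ℕ :=
  sz A B (w.count (Sum.inl 0)) (w.count (Sum.inl 1)) (w.count (Sum.inl 2)) (w.count (Sum.inl 3))
    (w.count (Sum.inl 4)) (w.count (Sum.inl 5)) (w.count (Sum.inl 6)) (w.count (Sum.inl 7))
    (w.count (Sum.inl 8)) (w.count (Sum.inl 9)) (w.count (Sum.inl 10))
    (fun d => w.count (Sum.inr d))

theorem CR_cp {α : Type} {f g : List α → ℕ} (hf : CR f) (hg : CR g) :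
    CR (fun w => cp (f w) (g w)) := ((hf.add hg).mul (hf.add hg)).add hf

theorem CR_szw (hAB : ∀ {α : Type} (F : Unit ⊕ δ → List α → ℕ), (∀ i, CR (F i)) →
        CR (fun w => A (fun i => F i w)) ∧ CR (fun w => B (fun i => F i w))) :
    CR (szw A B) := by
  have c : ∀ i : Fin 12, CR (fun w : List (Fin 12 ⊕ δ) => w.count (Sum.inl i)) := fun i =>
    CR.occ (Sum.inl i)
  have hN := (c 0).add (c 1)
  have harg : ∀ w : List (Fin 12 ⊕ δ), arg (w.count (Sum.inl 0)) (w.count (Sum.inl 1))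
      (w.count (Sum.inl 6)) (w.count (Sum.inl 7)) (fun d => w.count (Sum.inr d)) =
      fun i => (Sum.elim (fun _ => fun w : List (Fin 12 ⊕ δ) =>
        cp (w.count (Sum.inl 0) + w.count (Sum.inl 1))
          (cp (w.count (Sum.inl 6)) (w.count (Sum.inl 7))))
        (fun d => fun w : List (Fin 12 ⊕ δ) => w.count (Sum.inr d)) : Unit ⊕ δ → _ → ℕ) i w := by
    intro w
    funext i
    rcases i with i | i <;> rfl
  have hF := hAB (Sum.elim (fun _ => fun w : List (Fin 12 ⊕ δ) =>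
        cp (w.count (Sum.inl 0) + w.count (Sum.inl 1))
          (cp (w.count (Sum.inl 6)) (w.count (Sum.inl 7))))
        (fun d => fun w : List (Fin 12 ⊕ δ) => w.count (Sum.inr d)) : Unit ⊕ δ → _ → ℕ) (by
    intro i
    rcases i with i | i
    · exact CR_cp hN (CR_cp (c 6) (c 7))
    · exact CR.occ (Sum.inr i))
  obtain ⟨hA, hB⟩ := hF
  have h1 : CR fun w : List (Fin 12 ⊕ δ) => (w.count (Sum.inl 0) + 1) * w.count (Sum.inl 7) + 1 :=
    (((c 0).add CR.one).mul (c 7)).add CR.one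
  have h2 : CR fun w : List (Fin 12 ⊕ δ) => w.count (Sum.inl 8) *
      ((w.count (Sum.inl 0) + 1) * w.count (Sum.inl 7) + 1) + w.count (Sum.inl 10) :=
    ((c 8).mul h1).add (c 10)
  have h3 : CR fun w : List (Fin 12 ⊕ δ) =>
      (w.count (Sum.inl 0) + w.count (Sum.inl 1) + 1) * w.count (Sum.inl 7) :=
    ((hN.add CR.one)).mul (c 7)
  have h4 : CR fun w : List (Fin 12 ⊕ δ) => w.count (Sum.inl 10) + w.count (Sum.inl 9) +
      w.count (Sum.inl 1) * w.count (Sum.inl 7) := ((c 10).add (c 9)).add ((c 1).mul (c 7))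
  have hY := ((hA.mul hA).add (hB.mul hB)).add (((c 6).mul (c 6)).add (h2.mul h2)) |>.add
    ((h3.mul h3).add (h4.mul h4))
  have hZ := (((CR.const 2).mul (hA.mul hB)).add ((CR.const 2).mul ((c 6).mul h2))).add
    ((CR.const 2).mul (h3.mul h4))
  have hfin := (CR_cp (CR_cp (((hY.mul (c 2)).add (c 5)).add (c 3))
    (((hZ.mul (c 2)).add (c 5)).add (c 4))) (CR_cp hN (c 10))).add CR.one
  refine hfin.congr fun w => ?_
  unfold szw sz Yv Zv
  rw [harg w]

/-- the regular set of words -/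
def Reg (g : ℕ → ℕ → ℕ) (i : ℕ) : Set (List (Fin 12 ⊕ δ)) :=
  {w | mainC g i (w.count (Sum.inl 0)) (w.count (Sum.inl 1)) (w.count (Sum.inl 2))
    (w.count (Sum.inl 3)) (w.count (Sum.inl 4)) ∨
    junkC (w.count (Sum.inl 2)) (w.count (Sum.inl 3)) (w.count (Sum.inl 4))}

theorem Reg_ne_nil {g : ℕ → ℕ → ℕ} {i : ℕ} {w : List (Fin 12 ⊕ δ)} (h : w ∈ Reg g i) : w ≠ [] := by
  rintro rfl
  rcases h with ⟨h, _⟩ | ⟨_, h⟩
  · simp at h
  · simp at h

/-- words with prescribed numbers of letters -/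
theorem exists_word [Fintype δ] (o : Fin 12 → ℕ) (x : δ → ℕ) : ∃ w : List (Fin 12 ⊕ δ),
    (∀ i, w.count (Sum.inl i) = o i) ∧ ∀ d, w.count (Sum.inr d) = x d := by
  classical
  let s : Multiset (Fin 12 ⊕ δ) := ∑ a : Fin 12 ⊕ δ, Multiset.replicate (Sum.elim o x a) a
  have hs : ∀ b, s.count b = Sum.elim o x b := by
    intro b
    show Multiset.count b (∑ a : Fin 12 ⊕ δ, Multiset.replicate (Sum.elim o x a) a) = _
    rw [Multiset.count_sum']
    simp only [Multiset.count_replicate]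
    rw [Finset.sum_ite_eq']
    simp
  refine ⟨s.toList, fun i => ?_, fun d => ?_⟩
  · have := hs (Sum.inl i)
    rw [← Multiset.coe_toList s, Multiset.coe_count] at this
    exact this
  · have := hs (Sum.inr d)
    rw [← Multiset.coe_toList s, Multiset.coe_count] at this
    exact this

theorem sizes_iff [Fintype δ] (g : ℕ → ℕ → ℕ) (i k : ℕ) :
    (∃ w ∈ Reg (δ := δ) g i, szw A B w = k) ↔ k ∈ Sz A B g i := by
  constructor
  · rintro ⟨w, hw, rfl⟩
    exact ⟨_, _, _, _, _, _, _, _, _, _, _, _, hw, rfl⟩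
  · rintro ⟨j, n', m, y', z', s, t, c, a, d, v, x, hreg, rfl⟩
    obtain ⟨w, hw, hx⟩ := exists_word (δ := δ) ![j, n', m, y', z', s, t, c, a, d, v, 0] x
    have e0 := hw 0
    have e1 := hw 1
    have e2 := hw 2
    have e3 := hw 3
    have e4 := hw 4
    have e5 := hw 5
    have e6 := hw 6
    have e7 := hw 7
    have e8 := hw 8
    have e9 := hw 9
    have e10 := hw 10
    have ex : (fun d => w.count (Sum.inr d)) = x := funext hx
    simp only [Matrix.cons_val] at e0 e1 e2 e3 e4 e5 e6 e7 e8 e9 e10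
    refine ⟨w, ?_, ?_⟩
    · show mainC _ _ _ _ _ _ _ ∨ junkC _ _ _
      rw [e0, e1, e2, e3, e4]; exact hreg
    · unfold szw
      rw [e0, e1, e2, e3, e4, e5, e6, e7, e8, e9, e10, ex]

end

end Pool.Agent.H448R4
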