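import Pool.Agent.H448R4.Compl

set_option autoImplicit false

/-! The completeness part: the reduction. -/

namespace Pool.Agent.H448R4

open Set Pool.Agent.H448R3

attribute [-instance] Sum.instBEq

theorem cv_nil_nil : cv [] [] = [] := rfl

theorem cv_cons_cons (a b : ℕ) (x y : List ℕ) : cv (a :: x) (b :: y) = (some a, some b) :: cv x y := by
  unfold cv
  have h : max (a :: x).length (b :: y).length = max x.length y.length + 1 := by
    simp only [List.length_cons]; omega
  rw [h, List.range_succ_eq_map, List.map_cons, List.map_map]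
  rfl

theorem cv_nil_cons (b : ℕ) (y : List ℕ) : (none, some b) ∈ cv [] (b :: y) := by
  unfold cv
  rw [List.mem_map]
  exact ⟨0, by simp, rfl⟩

theorem cv_cons_nil (a : ℕ) (x : List ℕ) : (some a, none) ∈ cv (a :: x) [] := by
  unfold cv
  rw [List.mem_map]
  exact ⟨0, by simp, rfl⟩

section

variable {α Γ : Type} {nL : ℕ} (eL : α × Γ ≃ Fin nL)

/-- good letters -/
def Vl (a : Option ℕ × Option ℕ) : Prop :=
  ∃ b b' : α × Γ, a = (some (eL b : ℕ), some (eL b' : ℕ)) ∧ b.1 = b'.1

theorem cv_iff (x y : List ℕ) : (∀ a ∈ cv x y, Vl eL a) ↔ Rr eL x y := by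
  induction x generalizing y with
  | nil =>
    rcases y with _ | ⟨b, y⟩
    · constructor
      · intro _; exact ⟨[], [], rfl, rfl, rfl⟩
      · intro _ a ha; rw [cv_nil_nil] at ha; exact absurd ha (by simp)
    · constructor
      · intro h
        obtain ⟨_, _, h1, _⟩ := h _ (cv_nil_cons b y)
        exact absurd (congrArg Prod.fst h1) (by simp)
      · rintro ⟨u, v, h1, h2, h3⟩
        have hu : u = [] := by
          unfold code at h1
          exact List.map_eq_nil_iff.1 h1.symm
        subst hu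
        have hv : v = [] := List.map_eq_nil_iff.1 h3.symm
        subst hv
        exact absurd h2 (by simp [code])
  | cons a x ih =>
    rcases y with _ | ⟨b, y⟩
    · constructor
      · intro h
        obtain ⟨_, _, h1, _⟩ := h _ (cv_cons_nil a x)
        exact absurd (congrArg Prod.snd h1) (by simp)
      · rintro ⟨u, v, h1, h2, h3⟩
        have hv : v = [] := by
          unfold code at h2
          exact List.map_eq_nil_iff.1 h2.symm
        subst hv
        have hu : u = [] := List.map_eq_nil_iff.1 h3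
        subst hu
        exact absurd h1 (by simp [code])
    · rw [cv_cons_cons]
      constructor
      · intro h
        obtain ⟨c, c', h1, h2⟩ := h _ List.mem_cons_self
        obtain ⟨u, v, h3, h4, h5⟩ := (ih y).1 fun a ha => h a (List.mem_cons_of_mem _ ha)
        simp only [Prod.mk.injEq, Option.some.injEq] at h1
        refine ⟨c :: u, c' :: v, ?_, ?_, ?_⟩
        · rw [h1.1, h3]; rfl
        · rw [h1.2, h4]; rfl
        · simp only [List.map_cons, h2, h5]
      · rintro ⟨u, v, h1, h2, h3⟩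
        rcases u with _ | ⟨c, u⟩
        · exact absurd h1 (by simp [code])
        rcases v with _ | ⟨c', v⟩
        · exact absurd h2 (by simp [code])
        simp only [code, List.map_cons, List.cons.injEq] at h1 h2 h3
        intro e he
        rcases List.mem_cons.1 he with rfl | he
        · exact ⟨c, c', by rw [h1.1, h2.1], h3.1⟩
        · exact (ih y).2 ⟨u, v, h1.2, h2.2, h3.2⟩ e he

theorem exists_code (x : List ℕ) (h : ∀ a ∈ x, a < nL) : ∃ u : List (α × Γ), x = code eL u := by
  induction x with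
  | nil => exact ⟨[], rfl⟩
  | cons a x ih =>
    obtain ⟨u, hu⟩ := ih fun b hb => h b (List.mem_cons_of_mem _ hb)
    refine ⟨eL.symm ⟨a, h a List.mem_cons_self⟩ :: u, ?_⟩
    simp [code, hu]

end

theorem completeness {R : ℕ → ℕ → Prop} (hR : Equivalence R)
    (hP : ∃ P : ℕ × ℕ × ℕ → Prop, ComputablePred P ∧ ∀ x y, R x y ↔ ∀ t, P (x, y, t)) :
    ∃ f : ℕ → ℕ, Computable f ∧
      (∀ x, ∃ p : PT, Encodable.decode (f x) = some p ∧ EqOn' (domP p) (relP p)) ∧
      ∀ x y (p q : PT), Encodable.decode (f x) = some p → Encodable.decode (f y) = some q →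
        (R x y ↔ SIso (domP p) (domP q) (relP p) (relP q)) := by
  obtain ⟨g, hg, hgR, hle, hgg⟩ := exists_g hR hP
  obtain ⟨δ, hδ, A, B, hCR, hd⟩ := exists_dio hg
  classical
  obtain ⟨σ, Γ, iσ, iΓ, q0, dl, F, hcnt⟩ := CR_szw A B hCR
  let nL := Fintype.card ((Fin 12 ⊕ δ) × Γ)
  let eL : (Fin 12 ⊕ δ) × Γ ≃ Fin nL := Fintype.equivFin _
  let nτ := Fintype.card (σ × Kd)
  let eτ : σ × Kd ≃ Fin nτ := Fintype.equivFin _
  obtain ⟨tbl, htbl⟩ := tab ((Equiv.prodCongr eτ eL).trans finProdFinEquiv)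
    (fun x : (σ × Kd) × ((Fin 12 ⊕ δ) × Γ) =>
      (eτ (dl x.1.1 x.2.1 x.2.2, kstep x.1.2 x.2.1) : ℕ)) 0
  obtain ⟨z0, hz0⟩ := tab eL (fun b => decide (b.1 = Sum.inl 0)) false
  obtain ⟨z1, hz1⟩ := tab eL (fun b => decide (b.1 = Sum.inl 1)) false
  obtain ⟨Fj, hFj⟩ := tab eτ (fun a => F a.1 && kjunk a.2) false
  obtain ⟨Fm, hFm⟩ := tab eτ (fun a => F a.1 && kmain a.2) false
  have htbl' : ∀ (a : σ × Kd) (b : (Fin 12 ⊕ δ) × Γ), tbl.getD ((eτ a : ℕ) * nL + (eL b : ℕ)) 0 =
      (eτ (dl a.1 b.1 b.2, kstep a.2 b.1) : ℕ) := by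
    intro a b
    rw [← htbl (a, b)]
    congr 1
    simp only [Equiv.trans_apply, Equiv.prodCongr_apply, Prod.map_apply, finProdFinEquiv_apply_val]
    ring
  let st : ℕ → List ((Fin 12 ⊕ δ) × Γ) → ℕ := fun i u =>
    Nat.pair (eτ (run dl q0 u, kk (u.map Prod.fst)) : ℕ)
      (Nat.pair (min ((u.map Prod.fst).count (Sum.inl 0)) (i + 1))
        (min ((u.map Prod.fst).count (Sum.inl 1)) i))
  let s0 : ℕ := Nat.pair (eτ (q0, kk ([] : List (Fin 12 ⊕ δ))) : ℕ) (Nat.pair 0 0)
  have hst0 : ∀ i, st i [] = s0 := by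
    intro i
    show Nat.pair (eτ (run dl q0 [], kk []) : ℕ) (Nat.pair (min 0 (i + 1)) (min 0 i)) = _
    rw [Nat.zero_min, Nat.zero_min]; rfl
  have hstep : ∀ i u b, stepD nL tbl z0 z1 i (st i u) (eL b : ℕ) = st i (u ++ [b]) := by
    intro i u b
    show stepD nL tbl z0 z1 i (Nat.pair _ (Nat.pair _ _)) _ = Nat.pair _ (Nat.pair _ _)
    unfold stepD
    simp only [Nat.unpair_pair]
    rw [htbl', hz0, hz1]
    have h1 : run dl q0 (u ++ [b]) = dl (run dl q0 u) b.1 b.2 := by
      unfold run; rw [List.foldl_append]; rfl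
    have h2 : (u ++ [b]).map Prod.fst = u.map Prod.fst ++ [b.1] := by simp
    rw [h1, h2, kk_snoc, count_snoc, count_snoc]
    congr 2
    · by_cases h3 : b.1 = Sum.inl 0
      · rw [decide_eq_true h3, if_pos h3, cond_true]; omega
      · rw [decide_eq_false h3, if_neg h3, cond_false]; omega
    · by_cases h3 : b.1 = Sum.inl 1
      · rw [decide_eq_true h3, if_pos h3, cond_true]; omega
      · rw [decide_eq_false h3, if_neg h3, cond_false]; omega
  have hfold : ∀ i u, (code eL u).foldl (stepD nL tbl z0 z1 i) s0 = st i u := by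
    intro i u
    induction u using List.reverseRecOn with
    | nil => rw [hst0]; rfl
    | append_singleton u b ih =>
      have : code eL (u ++ [b]) = code eL u ++ [(eL b : ℕ)] := by simp [code]
      rw [this, List.foldl_append, ih]
      exact hstep i u b
  have hlt : ∀ i u, st i u < Bnd nτ i := fun i u =>
    state_lt nτ (Fin.is_lt _) (min_le_right _ _) (min_le_right _ _)
  have hacc : ∀ i u, faccD Fj Fm g i (st i u) = true ↔
      F (run dl q0 u) = true ∧ u.map Prod.fst ∈ Reg (δ := δ) g i := by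
    intro i u
    show faccD Fj Fm g i (Nat.pair _ (Nat.pair _ _)) = true ↔ _
    unfold faccD
    simp only [Nat.unpair_pair]
    rw [hFj, hFm]
    simp only [Bool.or_eq_true, Bool.and_eq_true, beq_iff_eq, decide_eq_true_eq]
    rw [kmain_iff, kjunk_iff]
    have hreg : u.map Prod.fst ∈ Reg (δ := δ) g i ↔
      (mainC g i ((u.map Prod.fst).count (Sum.inl 0)) ((u.map Prod.fst).count (Sum.inl 1))
        ((u.map Prod.fst).count (Sum.inl 2)) ((u.map Prod.fst).count (Sum.inl 3))
        ((u.map Prod.fst).count (Sum.inl 4)) ∨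
      junkC ((u.map Prod.fst).count (Sum.inl 2)) ((u.map Prod.fst).count (Sum.inl 3))
        ((u.map Prod.fst).count (Sum.inl 4))) := Iff.rfl
    rw [hreg]
    unfold mainC
    generalize (u.map Prod.fst).count (Sum.inl 0) = c0
    generalize (u.map Prod.fst).count (Sum.inl 1) = c1
    generalize (u.map Prod.fst).count (Sum.inl 2) = c2
    generalize (u.map Prod.fst).count (Sum.inl 3) = c3
    generalize (u.map Prod.fst).count (Sum.inl 4) = c4
    have e1 : min c0 (i + 1) = i ↔ c0 = i := by omega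
    have e2 : (min c0 (i + 1) + min c1 i < i ∧ g i (min c0 (i + 1) + min c1 i) = min c0 (i + 1)) ↔
        (c0 + c1 < i ∧ g i (c0 + c1) = c0) := by
      constructor
      · rintro ⟨h1, h2⟩
        have h3 : min c0 (i + 1) = c0 := by omega
        have h4 : min c1 i = c1 := by omega
        rw [h3, h4] at h1 h2
        exact ⟨h1, h2⟩
      · rintro ⟨h1, h2⟩
        have h3 : min c0 (i + 1) = c0 := by omega
        have h4 : min c1 i = c1 := by omega
        rw [h3, h4]
        exact ⟨h1, h2⟩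
    rw [e1, e2]
    tauto
  -- the relation list
  let RS : Finset (ℕ × (Option ℕ × Option ℕ) × ℕ) :=
    ((Finset.univ : Finset (((Fin 12 ⊕ δ) × Γ) × ((Fin 12 ⊕ δ) × Γ))).filter
      (fun x => x.1.1 = x.2.1)).image (fun x => (0, (some (eL x.1 : ℕ), some (eL x.2 : ℕ)), 0))
  have hRS : ∀ a q', (0, a, q') ∈ RS.toList ↔ Vl eL a ∧ q' = 0 := by
    intro a q'
    rw [Finset.mem_toList]
    simp only [RS, Finset.mem_image, Finset.mem_filter, Finset.mem_univ, true_and, Prod.mk.injEq]
    constructor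
    · rintro ⟨⟨b, b'⟩, h, rfl, rfl⟩
      exact ⟨⟨b, b', rfl, h⟩, rfl⟩
    · rintro ⟨⟨b, b', rfl, h⟩, rfl⟩
      exact ⟨(b, b'), h, rfl, rfl⟩
  let f : ℕ → ℕ := fun i => Encodable.encode
    (((transD nL tbl z0 z1 nτ i, s0, accD Fj Fm g nτ i), (RS.toList, 0, [0])) :
      (List (ℕ × ℕ × ℕ) × ℕ × List ℕ) × (List (ℕ × (Option ℕ × Option ℕ) × ℕ) × ℕ × List ℕ))
  have hf : Computable f := by
    have h1 : Computable fun i : ℕ => (transD nL tbl z0 z1 nτ i, s0, accD Fj Fm g nτ i) :=
      (transD_comp nL tbl z0 z1 nτ).pair ((Computable.const s0).pair (accD_comp Fj Fm g nτ hg))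
    exact Computable.encode.comp (h1.pair (Computable.const _))
  have hdec : ∀ i, ∃ p : PT, Encodable.decode (f i) = some p ∧
      (∀ x, x ∈ p.1.1 ↔ x ∈ transD nL tbl z0 z1 nτ i) ∧ p.1.2.1 = s0 ∧
      (∀ x, x ∈ p.1.2.2 ↔ x ∈ accD Fj Fm g nτ i) ∧ (∀ x, x ∈ p.2.1 ↔ x ∈ RS.toList) ∧
      p.2.2.1 = 0 ∧ ∀ x, x ∈ p.2.2.2 ↔ x = 0 := by
    intro i
    obtain ⟨S1, h1, h1'⟩ := decode_finset _ (nodup_transD nL tbl z0 z1 nτ i)
    obtain ⟨S2, h2, h2'⟩ := decode_finset _ (nodup_rfilter (Bnd nτ i) (faccD Fj Fm g i))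
    obtain ⟨S3, h3, h3'⟩ := decode_finset _ RS.nodup_toList
    obtain ⟨S4, h4, h4'⟩ := decode_finset [0] (List.nodup_singleton (0 : ℕ))
    refine ⟨((S1, s0, S2), (S3, 0, S4)), ?_, h1', rfl, h2', h3', rfl, fun x => ?_⟩
    · show Encodable.decode (Nat.pair (Nat.pair (Encodable.encode (transD nL tbl z0 z1 nτ i))
        (Nat.pair (Encodable.encode s0) (Encodable.encode (accD Fj Fm g nτ i))))
        (Nat.pair (Encodable.encode RS.toList) (Nat.pair (Encodable.encode 0)
          (Encodable.encode ([0] : List ℕ))))) = _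
      unfold accD
      simp only [Encodable.decode_prod_val, Nat.unpair_pair, h1, h2, h3, h4, Encodable.encodek,
        Option.bind_some, Option.map_some]
    · rw [h4', List.mem_singleton]
  have hdom : ∀ i (p : PT), Encodable.decode (f i) = some p →
      domP p = Dset dl F eL q0 (Reg (δ := δ) g i) ∧ ∀ x y, relP p x y ↔ Rr eL x y := by
    intro i p hp
    obtain ⟨p', hp', m1, m2, m3, m4, m5, m6⟩ := hdec i
    have : p = p' := Option.some.inj (hp.symm.trans hp')
    subst this
    constructor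
    · ext x
      show x ∈ (⟨fun q a => {q' | (q, a, q') ∈ p.1.1}, {p.1.2.1}, (p.1.2.2 : Set ℕ)⟩ :
        NFA ℕ ℕ).accepts ↔ _
      rw [m2, det_accepts (fun q a => {q' | (q, a, q') ∈ p.1.1}) s0 (p.1.2.2 : Set ℕ)
        {q | ∃ u, q = st i u} (fun a => a < nL) (stepD nL tbl z0 z1 i) ⟨[], (hst0 i).symm⟩]
      · constructor
        · rintro ⟨h1, h2⟩
          obtain ⟨u, rfl⟩ := exists_code eL x h1
          rw [hfold, Finset.mem_coe, m3] at h2
          have h3 := ((mem_rfilter _ _ _).1 h2).2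
          rw [hacc] at h3
          exact ⟨u, rfl, h3.1, h3.2⟩
        · rintro ⟨u, rfl, h1, h2⟩
          refine ⟨?_, ?_⟩
          · intro a ha
            unfold code at ha
            obtain ⟨b, _, rfl⟩ := List.mem_map.1 ha
            exact Fin.is_lt _
          · rw [hfold, Finset.mem_coe, m3]
            exact (mem_rfilter _ _ _).2 ⟨hlt i u, (hacc i u).2 ⟨h1, h2⟩⟩
      · rintro q ⟨u, rfl⟩ a ha
        have hb : a = (eL (eL.symm ⟨a, ha⟩) : ℕ) := by simp
        constructor
        · ext q'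
          simp only [mem_ofPred_eq, mem_singleton_iff]
          rw [m1, mem_transD]
          exact ⟨fun h => h.2.2, fun h => ⟨hlt i u, ha, h⟩⟩
        · rw [hb]
          exact ⟨_, hstep i u _⟩
      · rintro q _ a ha
        ext q'
        simp only [mem_ofPred_eq, mem_empty_iff_false, iff_false]
        rw [m1, mem_transD]
        exact fun h => ha h.2.1
    · intro x y
      show cv x y ∈ (⟨fun q a => {q' | (q, a, q') ∈ p.2.1}, {p.2.2.1}, (p.2.2.2 : Set ℕ)⟩ :
        NFA (Option ℕ × Option ℕ) ℕ).accepts ↔ _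
      rw [m5, det_accepts (fun q a => {q' | (q, a, q') ∈ p.2.1}) 0 (p.2.2.2 : Set ℕ)
        {0} (Vl eL) (fun _ _ => 0) rfl, cv_iff]
      · have h0 : (List.foldl (fun _ _ => 0) 0 (cv x y) : ℕ) ∈ (p.2.2.2 : Set ℕ) := by
          rw [Finset.mem_coe, m6]
          generalize cv x y = l
          induction l with
          | nil => rfl
          | cons a l ih => exact ih
        exact ⟨fun h => h.1, fun h => ⟨h, h0⟩⟩
      · rintro q hq a ha
        rw [mem_singleton_iff] at hq
        subst hq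
        refine ⟨?_, rfl⟩
        ext q'
        simp only [mem_ofPred_eq, mem_singleton_iff]
        rw [m4, hRS]
        exact ⟨fun h => h.2, fun h => ⟨ha, h⟩⟩
      · rintro q hq a ha
        rw [mem_singleton_iff] at hq
        subst hq
        ext q'
        simp only [mem_ofPred_eq, mem_empty_iff_false, iff_false]
        rw [m4, hRS]
        exact fun h => ha h.1
  have hrel : ∀ i (p : PT), Encodable.decode (f i) = some p → relP p = Rr eL := fun i p hp =>
    funext fun x => funext fun y => propext ((hdom i p hp).2 x y)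
  have hEq : ∀ i (p : PT), Encodable.decode (f i) = some p → EqOn' (domP p) (relP p) := by
    intro i p hp
    rw [(hdom i p hp).1, hrel i p hp]
    exact eqOn_Rr dl F eL q0 _
  have hinf : ∀ i, ∀ w ∈ Reg (δ := δ) g i, ∃ h : ℕ → List (Fin 12 ⊕ δ), Function.Injective h ∧
      ∀ n, h n ∈ Reg (δ := δ) g i ∧ cntW dl F (h n) q0 = cntW dl F w q0 := by
    intro i w hw
    refine ⟨fun n => w ++ List.replicate n (Sum.inl 11), ?_, fun n => ?_⟩
    · intro a b hab
      have := congrArg List.length hab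
      simpa using this
    · have hc : ∀ b : Fin 12 ⊕ δ, b ≠ Sum.inl 11 →
          (w ++ List.replicate n (Sum.inl 11)).count b = w.count b := by
        intro b hb
        have h0 : (List.replicate n (Sum.inl 11 : Fin 12 ⊕ δ)).count b = 0 :=
          List.count_eq_zero_of_not_mem fun hmem => hb (List.eq_of_mem_replicate hmem)
        rw [List.count_append, h0, Nat.add_zero]
      have hmem : w ++ List.replicate n (Sum.inl 11) ∈ Reg (δ := δ) g i := by
        show mainC _ _ _ _ _ _ _ ∨ junkC _ _ _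
        rw [hc _ (by simp), hc _ (by simp), hc _ (by simp), hc _ (by simp), hc _ (by simp)]
        exact hw
      refine ⟨hmem, ?_⟩
      rw [hcnt _ (Reg_ne_nil hmem), hcnt _ (Reg_ne_nil hw)]
      unfold szw
      have hx : (fun d => (w ++ List.replicate n (Sum.inl 11)).count (Sum.inr d)) =
          fun d : δ => w.count (Sum.inr d) := funext fun d => hc _ (by simp)
      rw [hx, hc _ (by simp), hc _ (by simp), hc _ (by simp), hc _ (by simp), hc _ (by simp),
        hc _ (by simp), hc _ (by simp), hc _ (by simp), hc _ (by simp), hc _ (by simp),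
        hc _ (by simp)]
  have hpos : ∀ w, szw A B w ≠ 0 := by
    intro w
    unfold szw sz
    omega
  have hex : ∀ i (κ : ℕ∞), (∃ w ∈ Reg (δ := δ) g i, cntW dl F w q0 ≠ 0 ∧
      (cntW dl F w q0 : ℕ∞) = κ) ↔ ∃ k ∈ Sz A B g i, (k : ℕ∞) = κ := by
    intro i κ
    constructor
    · rintro ⟨w, hw, _, hκ⟩
      refine ⟨szw A B w, (sizes_iff A B g i _).1 ⟨w, hw, rfl⟩, ?_⟩
      rw [← hcnt _ (Reg_ne_nil hw)]; exact hκ
    · rintro ⟨k, hk, hκ⟩
      obtain ⟨w, hw, rfl⟩ := (sizes_iff A B g i k).2 hk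
      refine ⟨w, hw, ?_, ?_⟩
      · rw [hcnt _ (Reg_ne_nil hw)]; exact hpos w
      · rw [hcnt _ (Reg_ne_nil hw)]; exact hκ
  refine ⟨f, hf, fun x => ?_, fun x y p q hp hq => ?_⟩
  · obtain ⟨p, hp, _⟩ := hdec x
    exact ⟨p, hp, hEq x p hp⟩
  · rw [siso_iff (hEq x p hp) (hEq y q hq), hgR, ← Sz_iff hd hle hgg, (hdom x p hp).1,
      (hdom y q hq).1, hrel x p hp, hrel y q hq]
    have c1 := fun κ => clset_encard dl F eL q0 (hinf x) κ
    have c2 := fun κ => clset_encard dl F eL q0 (hinf y) κ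
    constructor
    · intro hS κ
      rcases c1 κ with ⟨h1, h2⟩ | ⟨h1, h2⟩ <;> rcases c2 κ with ⟨h3, h4⟩ | ⟨h3, h4⟩
      · rw [h1, h3]
      · exfalso
        rw [hex, hS, ← hex] at h2
        exact h4 h2
      · exfalso
        rw [hex, ← hS, ← hex] at h4
        exact h2 h4
      · rw [h1, h3]
    · intro h
      have key : ∀ κ : ℕ∞, (∃ k ∈ Sz A B g x, (k : ℕ∞) = κ) ↔ ∃ k ∈ Sz A B g y, (k : ℕ∞) = κ := by
        intro κ
        rw [← hex, ← hex]
        rcases c1 κ with ⟨h1, h2⟩ | ⟨h1, h2⟩ <;> rcases c2 κ with ⟨h3, h4⟩ | ⟨h3, h4⟩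
        · exact ⟨fun _ => h4, fun _ => h2⟩
        · rw [h κ, h3] at h1; exact absurd h1 (by simp)
        · rw [h κ, h3] at h1; exact absurd h1 (by simp)
        · exact ⟨fun h5 => absurd h5 h2, fun h5 => absurd h5 h4⟩
      ext k
      have := key k
      constructor
      · intro hk
        obtain ⟨k', hk', he⟩ := this.1 ⟨k, hk, rfl⟩
        have : k' = k := by exact_mod_cast he
        rwa [← this]
      · intro hk
        obtain ⟨k', hk', he⟩ := this.2 ⟨k, hk, rfl⟩
        have : k' = k := by exact_mod_cast he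
        rwa [← this]

end Pool.Agent.H448R4
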