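import Pool.Agent.H448R3.GV

set_option autoImplicit false

/-! A computable function `g` such that a given `Π⁰₁` equivalence relation is
`∀ n, g x n = g y n`, with extra properties. -/

namespace Pool.Agent.H448R4

open Pool.Agent.H448R3

section

variable (Pb : ℕ × ℕ × ℕ → Bool)

/-- approximation of the relation -/
def ap (z y s : ℕ) : Bool := ball (s + 1) fun t => Pb (z, y, t)

theorem ap_iff (z y s : ℕ) : ap Pb z y s = true ↔ ∀ t ≤ s, Pb (z, y, t) = true := by
  unfold ap
  rw [ball_iff]
  exact ⟨fun h t ht => h t (Nat.lt_succ_of_le ht), fun h t ht => h t (Nat.lt_succ_iff.1 ht)⟩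

/-- the first approximate relative -/
def fr (y s : ℕ) : Option ℕ := fs (fun z => bif ap Pb z y s then some z else none) y

/-- the tentative value -/
def valc (L : List ℕ) (n y s : ℕ) : Option ℕ :=
  Option.casesOn (fr Pb y s) (some (bif decide (n < y) then 0 else y)) fun z0 =>
    bif ball y (fun z => !(ap Pb z y s) || (L.getD z 0 == L.getD z0 0)) then some (L.getD z0 0)
      else none

/-- one step -/
def stp (n fuel y : ℕ) (L : List ℕ) : Option ℕ :=
  fs (fun s => bif decide (s < n) then none else valc Pb L n y s) fuel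

/-- the table with bounded search -/
def cmp (fuel n y : ℕ) : Option (List ℕ) :=
  Nat.rec (motive := fun _ => Option (List ℕ)) (some [])
    (fun y' acc => Option.casesOn acc none fun L =>
      Option.casesOn (stp Pb n fuel y' L) none fun v => some (L ++ [v])) y

theorem fr_none {y s : ℕ} (h : fr Pb y s = none) : ∀ z < y, ap Pb z y s = false := by
  intro z hz
  by_contra hne
  have h1 : (fun z => (bif ap Pb z y s then some z else none : Option ℕ)) z = some z := by
    simp only [Bool.not_eq_false] at hne
    simp only [hne, cond_true]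
  obtain ⟨w, hw⟩ := fs_exists (f := fun z => (bif ap Pb z y s then some z else none : Option ℕ))
    hz h1
  unfold fr at h
  rw [hw] at h
  exact absurd h (by simp)

theorem fs_first {f : ℕ → Option ℕ} {n y : ℕ} (h : fs f n = some y) :
    ∃ k < n, f k = some y ∧ ∀ j < k, f j = none := by
  induction n with
  | zero => exact absurd h (by simp [fs])
  | succ n ih =>
    rw [fs_succ] at h
    rcases h1 : fs f n with _ | z
    · rw [h1] at h
      refine ⟨n, Nat.lt_succ_self n, h, fun j hj => ?_⟩
      rcases h2 : f j with _ | w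
      · rfl
      · obtain ⟨z, hz⟩ := fs_exists hj h2
        rw [hz] at h1
        exact absurd h1 (by simp)
    · rw [h1] at h
      have : z = y := Option.some.inj h
      subst this
      obtain ⟨k, hk, e⟩ := ih h1
      exact ⟨k, Nat.lt_succ_of_lt hk, e⟩

theorem fr_some {y s z : ℕ} (h : fr Pb y s = some z) :
    z < y ∧ ap Pb z y s = true ∧ ∀ j < z, ap Pb j y s = false := by
  obtain ⟨k, hk, h1, h2⟩ := fs_first h
  rcases h3 : ap Pb k y s with _ | _
  · simp only [h3, cond_false] at h1; exact absurd h1 (by simp)
  · simp only [h3, cond_true, Option.some.injEq] at h1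
    subst h1
    refine ⟨hk, h3, fun j hj => ?_⟩
    have h4 := h2 j hj
    rcases h5 : ap Pb j y s with _ | _
    · rfl
    · simp only [h5, cond_true] at h4; exact absurd h4 (by simp)

theorem cmp_succ (fuel n y : ℕ) : cmp Pb fuel n (y + 1) = Option.casesOn (cmp Pb fuel n y) none
    fun L => Option.casesOn (stp Pb n fuel y L) none fun v => some (L ++ [v]) := rfl

theorem cmp_succ_some {fuel n y : ℕ} {L' : List ℕ} (h : cmp Pb fuel n (y + 1) = some L') :
    ∃ L v, cmp Pb fuel n y = some L ∧ stp Pb n fuel y L = some v ∧ L' = L ++ [v] := by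
  rw [cmp_succ] at h
  rcases h1 : cmp Pb fuel n y with _ | L
  · rw [h1] at h; exact absurd h (by simp)
  · rw [h1] at h
    simp only at h
    rcases h2 : stp Pb n fuel y L with _ | v
    · rw [h2] at h; exact absurd h (by simp)
    · rw [h2] at h
      exact ⟨L, v, rfl, h2, (Option.some.inj h).symm⟩

theorem cmp_length {fuel n y : ℕ} {L : List ℕ} (h : cmp Pb fuel n y = some L) : L.length = y := by
  induction y generalizing L with
  | zero => have : L = [] := (Option.some.inj h).symm; subst this; rfl
  | succ y ih =>
    obtain ⟨L0, v, h1, _, rfl⟩ := cmp_succ_some Pb h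
    rw [List.length_append, ih h1]; rfl

theorem cmp_mono {fuel fuel' n y : ℕ} {L : List ℕ} (hf : fuel ≤ fuel')
    (h : cmp Pb fuel n y = some L) : cmp Pb fuel' n y = some L := by
  induction y generalizing L with
  | zero => exact h
  | succ y ih =>
    obtain ⟨L0, v, h1, h2, rfl⟩ := cmp_succ_some Pb h
    have h3 : stp Pb n fuel' y L0 = some v := fs_mono hf h2
    rw [cmp_succ, ih h1]
    simp only [h3]

theorem cmp_prefix {fuel n y m : ℕ} {L : List ℕ} (hm : m ≤ y) (h : cmp Pb fuel n y = some L) :
    ∃ L0, cmp Pb fuel n m = some L0 ∧ L0 <+: L := by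
  induction y generalizing L with
  | zero => rw [Nat.le_zero.1 hm]; exact ⟨L, h, List.prefix_refl _⟩
  | succ y ih =>
    rcases Nat.lt_or_eq_of_le hm with h' | rfl
    · obtain ⟨L1, v, h1, h2, rfl⟩ := cmp_succ_some Pb h
      obtain ⟨L0, h3, h4⟩ := ih (Nat.lt_succ_iff.1 h') h1
      exact ⟨L0, h3, h4.trans (List.prefix_append _ _)⟩
    · exact ⟨L, h, List.prefix_refl _⟩

theorem getD_of_prefix {L0 L : List ℕ} (h : L0 <+: L) {z : ℕ} (hz : z < L0.length) :
    L.getD z 0 = L0.getD z 0 := by
  have hz' : z < L.length := lt_of_lt_of_le hz h.length_le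
  rw [List.getD_eq_getElem?_getD, List.getD_eq_getElem?_getD, List.getElem?_eq_getElem hz,
    List.getElem?_eq_getElem hz', h.getElem hz]

/-- the characterisation of one step -/
def Chr (G : ℕ → ℕ) (n y v : ℕ) : Prop := ∃ s, n ≤ s ∧
  (((∀ z < y, ap Pb z y s = false) ∧ v = (if n < y then 0 else y)) ∨
   (∃ z0 < y, ap Pb z0 y s = true ∧ (∀ j < z0, ap Pb j y s = false) ∧
    (∀ z < y, ap Pb z y s = true → G z = G z0) ∧ v = G z0))

theorem stp_chr {n fuel y v : ℕ} {L : List ℕ} {G : ℕ → ℕ} (hG : ∀ z < y, L.getD z 0 = G z)
    (h : stp Pb n fuel y L = some v) : Chr Pb G n y v := by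
  obtain ⟨s, _, h1⟩ := fs_some h
  by_cases hs : s < n
  · simp only [decide_eq_true hs, cond_true] at h1; exact absurd h1 (by simp)
  · simp only [decide_eq_false hs, cond_false] at h1
    refine ⟨s, not_lt.1 hs, ?_⟩
    unfold valc at h1
    rcases h2 : fr Pb y s with _ | z0
    · rw [h2] at h1
      left
      refine ⟨fr_none Pb h2, ?_⟩
      simp only [Option.some.injEq] at h1
      rw [← h1]
      by_cases h3 : n < y
      · rw [decide_eq_true h3, if_pos h3]; rfl
      · rw [decide_eq_false h3, if_neg h3]; rfl
    · rw [h2] at h1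
      right
      obtain ⟨h3, h4, h5⟩ := fr_some Pb h2
      simp only at h1
      rcases h6 : ball y (fun z => !(ap Pb z y s) || (L.getD z 0 == L.getD z0 0)) with _ | _
      · rw [h6] at h1; exact absurd h1 (by simp)
      · rw [h6] at h1
        simp only [cond_true, Option.some.injEq] at h1
        rw [ball_iff] at h6
        refine ⟨z0, h3, h4, h5, ?_, ?_⟩
        · intro z hz hap
          have h7 := h6 z hz
          rw [hap] at h7
          simp only [Bool.not_true, Bool.false_or, beq_iff_eq] at h7
          rw [← hG z hz, ← hG z0 h3]; exact h7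
        · rw [← h1, hG z0 h3]

end

theorem ap_comp {Pb : ℕ × ℕ × ℕ → Bool} (hPb : Computable Pb) {α : Type} [Primcodable α]
    {z y s : α → ℕ} (hz : Computable z) (hy : Computable y) (hs : Computable s) :
    Computable fun a => ap Pb (z a) (y a) (s a) := by
  have h1 : Computable₂ fun (a : α) (t : ℕ) => Pb (z a, y a, t) :=
    hPb.comp ((hz.comp Computable.fst).pair ((hy.comp Computable.fst).pair Computable.snd))
  exact ball_comp (cadd hs (Computable.const 1)) h1

theorem fr_comp {Pb : ℕ × ℕ × ℕ → Bool} (hPb : Computable Pb) {α : Type} [Primcodable α]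
    {y s : α → ℕ} (hy : Computable y) (hs : Computable s) :
    Computable fun a => fr Pb (y a) (s a) := by
  have h1 : Computable₂ fun (a : α) (z : ℕ) => (bif ap Pb z (y a) (s a) then some z else none :
      Option ℕ) :=
    Computable.cond (ap_comp hPb Computable.snd (hy.comp Computable.fst) (hs.comp Computable.fst))
      (Computable.option_some.comp Computable.snd) (Computable.const none)
  exact fs_comp h1 hy

theorem valc_comp {Pb : ℕ × ℕ × ℕ → Bool} (hPb : Computable Pb) {α : Type} [Primcodable α]
    {L : α → List ℕ} {n y s : α → ℕ} (hL : Computable L) (hn : Computable n) (hy : Computable y)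
    (hs : Computable s) : Computable fun a => valc Pb (L a) (n a) (y a) (s a) := by
  have h1 : Computable fun a => (some (bif decide (n a < y a) then 0 else y a) : Option ℕ) :=
    Computable.option_some.comp (Computable.cond (clt hn hy) (Computable.const 0) hy)
  have h2 : Computable₂ fun (q : α × ℕ) (z : ℕ) =>
      (!(ap Pb z (y q.1) (s q.1)) || ((L q.1).getD z 0 == (L q.1).getD q.2 0)) := by
    have c1 : Computable fun r : (α × ℕ) × ℕ => r.1.1 := Computable.fst.comp Computable.fst
    exact cor (cnot (ap_comp hPb Computable.snd (hy.comp c1) (hs.comp c1)))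
      (cbeqN ((Primrec.list_getD 0).to_comp.comp (hL.comp c1) Computable.snd)
        ((Primrec.list_getD 0).to_comp.comp (hL.comp c1) (Computable.snd.comp Computable.fst)))
  have h3 : Computable₂ fun (a : α) (z0 : ℕ) =>
      (bif ball (y a) (fun z => !(ap Pb z (y a) (s a)) || ((L a).getD z 0 == (L a).getD z0 0))
        then some ((L a).getD z0 0) else none : Option ℕ) :=
    Computable.cond (ball_comp (hy.comp Computable.fst) h2)
      (Computable.option_some.comp ((Primrec.list_getD 0).to_comp.comp (hL.comp Computable.fst)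
        Computable.snd)) (Computable.const none)
  exact Computable.option_casesOn (fr_comp hPb hy hs) h1 h3

theorem cmp_comp {Pb : ℕ × ℕ × ℕ → Bool} (hPb : Computable Pb) {α : Type} [Primcodable α]
    {fuel n y : α → ℕ} (hf : Computable fuel) (hn : Computable n) (hy : Computable y) :
    Computable fun a => cmp Pb (fuel a) (n a) (y a) := by
  -- one step
  have hstp : Computable₂ fun (q : α × (ℕ × Option (List ℕ))) (L : List ℕ) =>
      stp Pb (n q.1) (fuel q.1) q.2.1 L := by
    have c1 : Computable fun r : (((α × (ℕ × Option (List ℕ))) × List ℕ) × ℕ) => r.1.1.1 :=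
      Computable.fst.comp (Computable.fst.comp Computable.fst)
    have c2 : Computable fun r : (((α × (ℕ × Option (List ℕ))) × List ℕ) × ℕ) => r.1.1.2.1 :=
      Computable.fst.comp (Computable.snd.comp (Computable.fst.comp Computable.fst))
    have h1 : Computable₂ fun (r : (α × (ℕ × Option (List ℕ))) × List ℕ) (s : ℕ) =>
        (bif decide (s < n r.1.1) then none else valc Pb r.2 (n r.1.1) r.1.2.1 s : Option ℕ) :=
      Computable.cond (clt Computable.snd (hn.comp c1)) (Computable.const none)
        (valc_comp hPb (Computable.snd.comp Computable.fst) (hn.comp c1) c2 Computable.snd)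
    exact fs_comp h1 (hf.comp (Computable.fst.comp Computable.fst))
  have h2 : Computable₂ fun (r : (α × (ℕ × Option (List ℕ))) × List ℕ) (v : ℕ) =>
      (some (r.2 ++ [v]) : Option (List ℕ)) :=
    Computable.option_some.comp (Computable.list_concat.comp (Computable.snd.comp Computable.fst)
      Computable.snd)
  have h3 : Computable₂ fun (q : α × (ℕ × Option (List ℕ))) (L : List ℕ) =>
      (Option.casesOn (stp Pb (n q.1) (fuel q.1) q.2.1 L) none fun v => some (L ++ [v]) :
        Option (List ℕ)) :=
    Computable.option_casesOn hstp (Computable.const none) h2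
  have h4 : Computable₂ fun (a : α) (q : ℕ × Option (List ℕ)) =>
      (Option.casesOn q.2 none fun L =>
      Option.casesOn (stp Pb (n a) (fuel a) q.1 L) none fun v => some (L ++ [v]) :
        Option (List ℕ)) :=
    Computable.option_casesOn (Computable.snd.comp Computable.snd) (Computable.const none) h3
  exact (Computable.nat_rec hy (Computable.const (some [])) h4).of_eq fun a => rfl

theorem exists_g {R : ℕ → ℕ → Prop} (hR : Equivalence R)
    (hP : ∃ P : ℕ × ℕ × ℕ → Prop, ComputablePred P ∧ ∀ x y, R x y ↔ ∀ t, P (x, y, t)) :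
    ∃ g : ℕ → ℕ → ℕ, Computable₂ g ∧ (∀ x y, R x y ↔ ∀ n, g x n = g y n) ∧
      (∀ y n, g y n ≤ n) ∧ (∀ y n, g (g y n) n = g y n) := by
  obtain ⟨P, ⟨hdec, hPc⟩, hRP⟩ := hP
  let Pb : ℕ × ℕ × ℕ → Bool := fun q => decide (P q)
  have hPb : Computable Pb := hPc
  have hRap : ∀ x y, R x y ↔ ∀ s, ap Pb x y s = true := by
    intro x y
    rw [hRP]
    constructor
    · intro h s
      rw [ap_iff]
      exact fun t _ => decide_eq_true (h t)
    · intro h t
      have := (ap_iff Pb x y t).1 (h t) t (le_refl t)
      exact of_decide_eq_true this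
  have hap_mono : ∀ x y s s', s ≤ s' → ap Pb x y s' = true → ap Pb x y s = true := by
    intro x y s s' hs h
    rw [ap_iff] at h ⊢
    exact fun t ht => h t (le_trans ht hs)
  -- a stage at which the approximation is correct below `m`
  have hstage : ∀ m : ℕ, ∃ s0, ∀ x < m, ∀ y < m, ∀ s, s0 ≤ s →
      (ap Pb x y s = true → R x y) := by
    intro m
    have h1 : ∀ x y, ∃ s0, ∀ s, s0 ≤ s → (ap Pb x y s = true → R x y) := by
      intro x y
      by_cases h : R x y
      · exact ⟨0, fun _ _ _ => h⟩
      · have h2 : ∃ s, ap Pb x y s ≠ true := by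
          by_contra hcon
          push Not at hcon
          exact h ((hRap x y).2 hcon)
        obtain ⟨s, hs⟩ := h2
        exact ⟨s, fun s' hs' h' => absurd (hap_mono x y s s' hs' h') hs⟩
    choose S hS using h1
    refine ⟨∑ x ∈ Finset.range m, ∑ y ∈ Finset.range m, S x y, fun x hx y hy s hs => ?_⟩
    refine hS x y s (le_trans ?_ hs)
    refine le_trans (Finset.single_le_sum (f := fun y => S x y) (fun _ _ => Nat.zero_le _)
      (Finset.mem_range.2 hy)) ?_
    exact Finset.single_le_sum (f := fun x => ∑ y ∈ Finset.range m, S x y)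
      (fun _ _ => Nat.zero_le _) (Finset.mem_range.2 hx)
  -- invariance of the tables
  have hinv : ∀ fuel n y L, cmp Pb fuel n y = some L → ∀ z < y, ∀ z' < y, R z z' →
      L.getD z 0 = L.getD z' 0 := by
    intro fuel n y
    induction y with
    | zero => intro L _ z hz; exact absurd hz (Nat.not_lt_zero z)
    | succ y ih =>
      intro L' h
      obtain ⟨L, v, h1, h2, rfl⟩ := cmp_succ_some Pb h
      have hlen := cmp_length Pb h1
      have hv : (L ++ [v]).getD y 0 = v := by
        rw [List.getD_eq_getElem?_getD, List.getElem?_append_right (by omega)]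
        simp [hlen]
      have hlt : ∀ z < y, (L ++ [v]).getD z 0 = L.getD z 0 := fun z hz =>
        getD_of_prefix (List.prefix_append _ _) (by omega)
      have hnew : ∀ z < y, R z y → L.getD z 0 = v := by
        intro z hz hzy
        obtain ⟨s, _, h3 | h3⟩ := stp_chr Pb (G := fun z => L.getD z 0) (fun _ _ => rfl) h2
        · have h4 := h3.1 z hz
          rw [(hRap z y).1 hzy s] at h4
          exact absurd h4 (by simp)
        · obtain ⟨z0, _, _, _, h5, h6⟩ := h3
          rw [h6]
          exact h5 z hz ((hRap z y).1 hzy s)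
      intro z hz z' hz' hzz
      rcases Nat.lt_or_eq_of_le (Nat.lt_succ_iff.1 hz) with hz1 | rfl
      · rcases Nat.lt_or_eq_of_le (Nat.lt_succ_iff.1 hz') with hz2 | rfl
        · rw [hlt z hz1, hlt z' hz2]; exact ih L h1 z hz1 z' hz2 hzz
        · rw [hlt z hz1, hv]; exact hnew z hz1 hzz
      · rcases Nat.lt_or_eq_of_le (Nat.lt_succ_iff.1 hz') with hz2 | rfl
        · rw [hlt z' hz2, hv]; exact (hnew z' hz2 (hR.symm hzz)).symm
        · rfl
  -- totality
  have htot : ∀ n y, ∃ fuel L, cmp Pb fuel n y = some L := by
    intro n y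
    induction y with
    | zero => exact ⟨0, [], rfl⟩
    | succ y ih =>
      obtain ⟨fuel, L, hL⟩ := ih
      obtain ⟨s0, hs0⟩ := hstage (y + 1)
      have h1 : ∃ v, (fun s => (bif decide (s < n) then none else valc Pb L n y s : Option ℕ))
          (n + s0) = some v := by
        have h2 : ¬ (n + s0 < n) := by omega
        simp only [decide_eq_false h2, cond_false]
        unfold valc
        rcases h3 : fr Pb y (n + s0) with _ | z0
        · exact ⟨_, rfl⟩
        · obtain ⟨h4, h5, h6⟩ := fr_some Pb h3
          refine ⟨L.getD z0 0, ?_⟩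
          have h7 : ball y (fun z => !(ap Pb z y (n + s0)) || (L.getD z 0 == L.getD z0 0)) =
              true := by
            rw [ball_iff]
            intro z hz
            rcases h8 : ap Pb z y (n + s0) with _ | _
            · rfl
            · have h9 : R z y := hs0 z (by omega) y (by omega) _ (by omega) h8
              have h10 : R z0 y := hs0 z0 (by omega) y (by omega) _ (by omega) h5
              have h11 := hinv _ _ _ _ hL z hz z0 h4 (hR.trans h9 (hR.symm h10))
              rw [h11, beq_self_eq_true]; rfl
          simp only [h7, cond_true]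
      obtain ⟨v, hv⟩ := h1
      obtain ⟨w, hw⟩ := fs_exists
        (f := fun s => (bif decide (s < n) then none else valc Pb L n y s : Option ℕ))
        (show n + s0 < fuel + (n + s0 + 1) by omega) hv
      refine ⟨fuel + (n + s0 + 1), L ++ [w], ?_⟩
      rw [cmp_succ, cmp_mono Pb (by omega) hL]
      have hw' : stp Pb n (fuel + (n + s0 + 1)) y L = some w := hw
      simp only [hw']
  -- the function
  have hq : Computable₂ fun (a : ℕ × ℕ) (fuel : ℕ) => (cmp Pb fuel a.2 (a.1 + 1)).isSome :=
    Primrec.option_isSome.to_comp.comp (cmp_comp hPb Computable.snd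
      (Computable.snd.comp Computable.fst)
      (cadd (Computable.fst.comp Computable.fst) (Computable.const 1)))
  obtain ⟨F, hF, hFs⟩ := search hq (by
    intro a
    obtain ⟨fuel, L, h⟩ := htot a.2 (a.1 + 1)
    exact ⟨fuel, by rw [h]; rfl⟩)
  let g : ℕ → ℕ → ℕ := fun y n => ((cmp Pb (F (y, n)) n (y + 1)).getD []).getD y 0
  have hg : Computable₂ g := by
    have h1 : Computable fun a : ℕ × ℕ => (cmp Pb (F a) a.2 (a.1 + 1)).getD [] :=
      Computable.option_getD (cmp_comp hPb hF Computable.snd
        (cadd Computable.fst (Computable.const 1))) (Computable.const [])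
    exact (Primrec.list_getD 0).to_comp.comp h1 Computable.fst
  have hgval : ∀ fuel n m L, cmp Pb fuel n m = some L → ∀ z < m, L.getD z 0 = g z n := by
    intro fuel n m L hL z hz
    obtain ⟨L0, h1, h2⟩ := cmp_prefix Pb (show z + 1 ≤ m by omega) hL
    obtain ⟨L1, h3⟩ := Option.isSome_iff_exists.1 (hFs (z, n))
    have h3' : cmp Pb (F (z, n)) n (z + 1) = some L1 := h3
    have h4 := cmp_mono Pb (le_max_left fuel (F (z, n))) h1
    have h5 := cmp_mono Pb (le_max_right fuel (F (z, n))) h3'
    have h6 : L0 = L1 := Option.some.inj (h4.symm.trans h5)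
    have h7 := cmp_length Pb h1
    rw [getD_of_prefix h2 (by omega)]
    show _ = ((cmp Pb (F (z, n)) n (z + 1)).getD []).getD z 0
    rw [h3', Option.getD_some, h6]
  have hchr : ∀ y n, Chr Pb (fun z => g z n) n y (g y n) := by
    intro y n
    obtain ⟨fuel, L', h⟩ := htot n (y + 1)
    obtain ⟨L, v, h1, h2, rfl⟩ := cmp_succ_some Pb h
    have h3 := hgval _ _ _ _ h y (Nat.lt_succ_self y)
    have hlen := cmp_length Pb h1
    have hv : (L ++ [v]).getD y 0 = v := by
      rw [List.getD_eq_getElem?_getD, List.getElem?_append_right (by omega)]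
      simp [hlen]
    rw [← h3, hv]
    exact stp_chr Pb (hgval _ _ _ _ h1) h2
  have hginv : ∀ x y n, x < y → R x y → g x n = g y n := by
    intro x y n hxy hRxy
    obtain ⟨s, _, h3 | h3⟩ := hchr y n
    · have h4 := h3.1 x hxy
      rw [(hRap x y).1 hRxy s] at h4
      exact absurd h4 (by simp)
    · obtain ⟨z0, _, _, _, h5, h6⟩ := h3
      rw [h6]
      exact h5 x hxy ((hRap x y).1 hRxy s)
  refine ⟨g, hg, ?_, ?_, ?_⟩
  · intro x y
    constructor
    · intro h n
      rcases lt_trichotomy x y with h1 | rfl | h1
      · exact hginv x y n h1 h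
      · rfl
      · exact (hginv y x n h1 (hR.symm h)).symm
    · intro h
      obtain ⟨s0, hs0⟩ := hstage (x + y + 1)
      let n := s0 + x + y
      have key : ∀ m, m ≤ x + y → R (g m n) m ∧ ∀ z < g m n, ¬ R z m := by
        intro m
        induction m using Nat.strong_induction_on with
        | _ m ih =>
          intro hm
          obtain ⟨s, hns, h3 | h3⟩ := hchr m n
          · obtain ⟨h4, h5⟩ := h3
            rw [if_neg (by omega)] at h5
            rw [h5]
            refine ⟨hR.refl m, fun z hz hzm => ?_⟩
            have h6 := h4 z hz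
            rw [(hRap z m).1 hzm s] at h6
            exact absurd h6 (by simp)
          · obtain ⟨z0, hz0, h4, h5, _, h7⟩ := h3
            have h8 : R z0 m := hs0 z0 (by omega) m (by omega) s (by omega) h4
            have h9 := ih z0 hz0 (by omega)
            simp only at h7
            rw [h7]
            refine ⟨hR.trans h9.1 h8, fun z hz hzm => h9.2 z hz (hR.trans hzm (hR.symm h8))⟩
      have h1 := (key x (by omega)).1
      have h2 := (key y (by omega)).1
      rw [h n] at h1
      exact hR.trans (hR.symm h1) h2
  · intro y n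
    induction y using Nat.strong_induction_on with
    | _ y ih =>
      obtain ⟨s, _, h3 | h3⟩ := hchr y n
      · rw [h3.2]
        split_ifs <;> omega
      · obtain ⟨z0, hz0, _, _, _, h7⟩ := h3
        simp only at h7
        rw [h7]; exact ih z0 hz0
  · intro y n
    have h0 : g 0 n = 0 := by
      obtain ⟨s, _, h3 | h3⟩ := hchr 0 n
      · rw [h3.2, if_neg (by omega)]
      · obtain ⟨z0, hz0, _⟩ := h3
        exact absurd hz0 (Nat.not_lt_zero _)
    induction y using Nat.strong_induction_on with
    | _ y ih =>
      obtain ⟨s, _, h3 | h3⟩ := hchr y n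
      · obtain ⟨_, h5⟩ := h3
        by_cases h6 : n < y
        · rw [if_pos h6] at h5
          rw [h5, h0]
        · rw [if_neg h6] at h5
          rw [h5, h5]
      · obtain ⟨z0, hz0, _, _, _, h7⟩ := h3
        simp only at h7
        rw [h7]; exact ih z0 hz0

end Pool.Agent.H448R4
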