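import Mathlib

set_option autoImplicit false

/-! Isomorphism of countable equivalence structures. -/

namespace Pool.Agent.H448R4

open Set

/-- isomorphism of binary relations on sets of words -/
def SIso (D1 D2 : Set (List ℕ)) (r1 r2 : List ℕ → List ℕ → Prop) : Prop :=
  ∃ f : List ℕ → List ℕ, Set.BijOn f D1 D2 ∧ ∀ u ∈ D1, ∀ v ∈ D1, (r1 u v ↔ r2 (f u) (f v))

/-- equivalence relation on a set -/
def EqOn' (D : Set (List ℕ)) (r : List ℕ → List ℕ → Prop) : Prop :=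
  (∀ u ∈ D, r u u) ∧ (∀ u ∈ D, ∀ v ∈ D, r u v → r v u) ∧
    (∀ u ∈ D, ∀ v ∈ D, ∀ w ∈ D, r u v → r v w → r u w)

/-- the class of a word -/
def cls (D : Set (List ℕ)) (r : List ℕ → List ℕ → Prop) (u : List ℕ) : Set (List ℕ) :=
  {v | v ∈ D ∧ r u v}

/-- the classes of a given size -/
def clset (D : Set (List ℕ)) (r : List ℕ → List ℕ → Prop) (κ : ℕ∞) : Set (Set (List ℕ)) :=
  {C | ∃ u ∈ D, C = cls D r u ∧ C.encard = κ}

theorem bij_of_encard {α β : Type} [Nonempty β] {s : Set α} {t : Set β} (hs : s.Countable)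
    (ht : t.Countable) (h : s.encard = t.encard) : ∃ f : α → β, BijOn f s t := by
  classical
  have h1 : Cardinal.mk s = Cardinal.mk t := by
    have hs' : Cardinal.mk s ≤ Cardinal.aleph0 := Cardinal.mk_le_aleph0_iff.2 hs
    have ht' : Cardinal.mk t ≤ Cardinal.aleph0 := Cardinal.mk_le_aleph0_iff.2 ht
    exact Cardinal.toENat_injOn hs' ht' h
  obtain ⟨e⟩ := Cardinal.eq.1 h1
  refine ⟨fun a => if ha : a ∈ s then (e ⟨a, ha⟩ : β) else Classical.arbitrary β, ?_, ?_, ?_⟩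
  · intro a ha
    simp only [dif_pos ha]
    exact (e ⟨a, ha⟩).2
  · intro a ha b hb hab
    simp only [dif_pos ha, dif_pos hb] at hab
    have := e.injective (Subtype.ext hab)
    exact congrArg Subtype.val this
  · intro b hb
    refine ⟨(e.symm ⟨b, hb⟩ : α), (e.symm ⟨b, hb⟩).2, ?_⟩
    simp only [dif_pos (e.symm ⟨b, hb⟩).2, Subtype.coe_eta, Equiv.apply_symm_apply]

theorem cls_eq {D : Set (List ℕ)} {r : List ℕ → List ℕ → Prop} (h : EqOn' D r) {u v : List ℕ}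
    (hu : u ∈ D) (hv : v ∈ D) : cls D r u = cls D r v ↔ r u v := by
  obtain ⟨h1, h2, h3⟩ := h
  constructor
  · intro he
    have : v ∈ cls D r v := ⟨hv, h1 v hv⟩
    rw [← he] at this
    exact this.2
  · intro hr
    ext w
    exact ⟨fun hw => ⟨hw.1, h3 v hv u hu w hw.1 (h2 u hu v hv hr) hw.2⟩,
      fun hw => ⟨hw.1, h3 u hu v hv w hw.1 hr hw.2⟩⟩

theorem mem_cls {D : Set (List ℕ)} {r : List ℕ → List ℕ → Prop} (h : EqOn' D r) {u : List ℕ}
    (hu : u ∈ D) : u ∈ cls D r u := ⟨hu, h.1 u hu⟩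

theorem clset_countable (D : Set (List ℕ)) (r : List ℕ → List ℕ → Prop) (κ : ℕ∞) :
    (clset D r κ).Countable := by
  refine (Set.countable_range (cls D r)).mono ?_
  rintro C ⟨u, _, rfl, _⟩
  exact ⟨u, rfl⟩

theorem siso_iff {D1 D2 : Set (List ℕ)} {r1 r2 : List ℕ → List ℕ → Prop} (h1 : EqOn' D1 r1)
    (h2 : EqOn' D2 r2) :
    SIso D1 D2 r1 r2 ↔ ∀ κ : ℕ∞, (clset D1 r1 κ).encard = (clset D2 r2 κ).encard := by
  constructor
  · rintro ⟨f, hf, hr⟩ κ
    have himg : ∀ u ∈ D1, f '' cls D1 r1 u = cls D2 r2 (f u) := by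
      intro u hu
      ext w
      constructor
      · rintro ⟨v, hv, rfl⟩
        exact ⟨hf.mapsTo hv.1, (hr u hu v hv.1).1 hv.2⟩
      · rintro ⟨hw, hrw⟩
        obtain ⟨v, hv, rfl⟩ := hf.surjOn hw
        exact ⟨v, ⟨hv, (hr u hu v hv).2 hrw⟩, rfl⟩
    have hsub : ∀ C ∈ clset D1 r1 κ, C ⊆ D1 := by
      rintro C ⟨u, _, rfl, _⟩ w hw
      exact hw.1
    have hcard : ∀ C, C ⊆ D1 → (f '' C).encard = C.encard := fun C hC =>
      (hf.injOn.mono hC).encard_image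
    have h3 : clset D2 r2 κ = (fun C => f '' C) '' clset D1 r1 κ := by
      ext C
      constructor
      · rintro ⟨v, hv, rfl, hk⟩
        obtain ⟨u, hu, rfl⟩ := hf.surjOn hv
        refine ⟨cls D1 r1 u, ⟨u, hu, rfl, ?_⟩, himg u hu⟩
        rw [← hk, ← himg u hu, hcard _ (fun w hw => hw.1)]
      · rintro ⟨C', hC', rfl⟩
        have hs := hsub C' hC'
        obtain ⟨u, hu, rfl, hk⟩ := hC'
        refine ⟨f u, hf.mapsTo hu, himg u hu, ?_⟩
        show (f '' cls D1 r1 u).encard = κ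
        rw [hcard _ hs, hk]
    rw [h3]
    refine (InjOn.encard_image ?_).symm
    intro C hC C' hC' he
    exact (hf.injOn.image_eq_image_iff (hsub C hC) (hsub C' hC')).1 he
  · intro hk
    have hΦ : ∀ κ : ℕ∞, ∃ F : Set (List ℕ) → Set (List ℕ), BijOn F (clset D1 r1 κ) (clset D2 r2 κ) :=
      fun κ => bij_of_encard (clset_countable D1 r1 κ) (clset_countable D2 r2 κ) (hk κ)
    choose Φ hΦ using hΦ
    let φ : Set (List ℕ) → Set (List ℕ) := fun C => Φ C.encard C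
    have hφ : ∀ u ∈ D1, φ (cls D1 r1 u) ∈ clset D2 r2 (cls D1 r1 u).encard := fun u hu =>
      (hΦ _).mapsTo ⟨u, hu, rfl, rfl⟩
    have hψ : ∀ C : Set (List ℕ), ∃ g : List ℕ → List ℕ, (∃ u ∈ D1, C = cls D1 r1 u) →
        BijOn g C (φ C) := by
      intro C
      by_cases hC : ∃ u ∈ D1, C = cls D1 r1 u
      · obtain ⟨u, hu, rfl⟩ := hC
        obtain ⟨v, hv, he, hc⟩ := hφ u hu
        obtain ⟨g, hg⟩ := bij_of_encard (s := cls D1 r1 u) (t := φ (cls D1 r1 u))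
          (Set.to_countable _) (Set.to_countable _) hc.symm
        exact ⟨g, fun _ => hg⟩
      · exact ⟨id, fun h => absurd h hC⟩
    choose ψ hψ using hψ
    let f : List ℕ → List ℕ := fun u => ψ (cls D1 r1 u) u
    have hbij : ∀ u ∈ D1, BijOn (ψ (cls D1 r1 u)) (cls D1 r1 u) (φ (cls D1 r1 u)) :=
      fun u hu => hψ _ ⟨u, hu, rfl⟩
    have hfu : ∀ u ∈ D1, f u ∈ φ (cls D1 r1 u) := fun u hu => (hbij u hu).mapsTo (mem_cls h1 hu)
    have hfD : ∀ u ∈ D1, f u ∈ D2 ∧ φ (cls D1 r1 u) = cls D2 r2 (f u) := by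
      intro u hu
      obtain ⟨v, hv, he, hc⟩ := hφ u hu
      have h3 := hfu u hu
      rw [he] at h3 ⊢
      exact ⟨h3.1, (cls_eq h2 hv h3.1).2 h3.2⟩
    have hφinj : ∀ u ∈ D1, ∀ v ∈ D1, φ (cls D1 r1 u) = φ (cls D1 r1 v) →
        cls D1 r1 u = cls D1 r1 v := by
      intro u hu v hv he
      have e1 := (hφ u hu)
      have e2 := (hφ v hv)
      obtain ⟨_, _, _, c1⟩ := e1
      obtain ⟨_, _, _, c2⟩ := e2
      have hc : (cls D1 r1 u).encard = (cls D1 r1 v).encard := by rw [← c1, ← c2, he]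
      have he' : Φ (cls D1 r1 u).encard (cls D1 r1 u) = Φ (cls D1 r1 u).encard (cls D1 r1 v) := by
        have : φ (cls D1 r1 v) = Φ (cls D1 r1 v).encard (cls D1 r1 v) := rfl
        rw [← hc] at this
        rw [← this, ← he]
      exact (hΦ _).injOn ⟨u, hu, rfl, rfl⟩ ⟨v, hv, rfl, hc.symm⟩ he'
    have hrel : ∀ u ∈ D1, ∀ v ∈ D1, (r1 u v ↔ r2 (f u) (f v)) := by
      intro u hu v hv
      rw [← cls_eq h1 hu hv, ← cls_eq h2 (hfD u hu).1 (hfD v hv).1, ← (hfD u hu).2,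
        ← (hfD v hv).2]
      exact ⟨fun h => by rw [h], hφinj u hu v hv⟩
    refine ⟨f, ⟨fun u hu => (hfD u hu).1, ?_, ?_⟩, hrel⟩
    · intro u hu v hv he
      have h3 : r1 u v := by
        rw [hrel u hu v hv, he]
        exact h2.1 _ (hfD v hv).1
      have h4 := (cls_eq h1 hu hv).2 h3
      have h5 : ψ (cls D1 r1 u) u = ψ (cls D1 r1 u) v := by
        have : f v = ψ (cls D1 r1 v) v := rfl
        rw [← h4] at this
        rw [← this, ← he]
      exact (hbij u hu).injOn (mem_cls h1 hu) ⟨hv, h3⟩ h5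
    · intro w hw
      obtain ⟨C, ⟨u, hu, rfl, hc⟩, he⟩ := (hΦ (cls D2 r2 w).encard).surjOn ⟨w, hw, rfl, rfl⟩
      have he' : φ (cls D1 r1 u) = cls D2 r2 w := by
        show Φ (cls D1 r1 u).encard _ = _
        rw [hc]; exact he
      have hw' : w ∈ φ (cls D1 r1 u) := by rw [he']; exact mem_cls h2 hw
      obtain ⟨v, hv, rfl⟩ := (hbij u hu).surjOn hw'
      refine ⟨v, hv.1, ?_⟩
      have h4 := (cls_eq h1 hu hv.1).2 hv.2
      show ψ (cls D1 r1 v) v = _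
      rw [← h4]

end Pool.Agent.H448R4
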