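import Pool.Agent.H448R4.GFun
import Pool.Agent.H448R4.CR
import Pool.Agent.Helper948.ProP.DPRM

set_option autoImplicit false

/-! The size function. -/

namespace Pool.Agent.H448R4

open Pool.Agent.H448R3

/-- an injective polynomial pairing -/
def cp (x y : ℕ) : ℕ := (x + y) * (x + y) + x

theorem cp_inj {x y x' y' : ℕ} (h : cp x y = cp x' y') : x = x' ∧ y = y' := by
  unfold cp at h
  have h1 : x + y = x' + y' := by
    rcases lt_trichotomy (x + y) (x' + y') with h2 | h2 | h2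
    · exfalso; nlinarith
    · exact h2
    · exfalso; nlinarith
  rw [h1] at h
  omega

theorem le_cp_left (x y : ℕ) : x ≤ cp x y := by unfold cp; omega
theorem le_cp_right (x y : ℕ) : y ≤ cp x y := by unfold cp; nlinarith

theorem cp_comp {α : Type} [Primcodable α] {f g : α → ℕ} (hf : Computable f) (hg : Computable g) :
    Computable fun a => cp (f a) (g a) := cadd (cmul (cadd hf hg) (cadd hf hg)) hf

theorem exists_dio {g : ℕ → ℕ → ℕ} (hg : Computable₂ g) :
    ∃ (δ : Type) (_ : Fintype δ) (A B : ((Unit ⊕ δ) → ℕ) → ℕ),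
      (∀ {α : Type} (F : Unit ⊕ δ → List α → ℕ), (∀ i, CR (F i)) →
        CR (fun w => A (fun i => F i w)) ∧ CR (fun w => B (fun i => F i w))) ∧
      ∀ n t c, (∃ x : δ → ℕ, A (Sum.elim (fun _ => cp n (cp t c)) x) =
        B (Sum.elim (fun _ => cp n (cp t c)) x)) ↔ ∀ j ≤ n, t % ((j + 1) * c + 1) = g j n := by
  let q : ℕ → Bool := fun m => bex (m + 1) fun n => bex (m + 1) fun t => bex (m + 1) fun c =>
    (m == cp n (cp t c)) && ball (n + 1) fun j => (t % ((j + 1) * c + 1) == g j n)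
  have hq : Computable q := by
    have h1 : Computable₂ fun (r : ((ℕ × ℕ) × ℕ) × ℕ) (j : ℕ) =>
        (r.1.2 % ((j + 1) * r.2 + 1) == g j r.1.1.2) :=
      cbeqN (cmod (Computable.snd.comp (Computable.fst.comp Computable.fst))
        (cadd (cmul (cadd Computable.snd (Computable.const 1)) (Computable.snd.comp Computable.fst))
          (Computable.const 1)))
        (hg.comp Computable.snd (Computable.snd.comp (Computable.fst.comp
          (Computable.fst.comp Computable.fst))))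
    have h2 : Computable₂ fun (r : (ℕ × ℕ) × ℕ) (c : ℕ) => (r.1.1 == cp r.1.2 (cp r.2 c)) &&
        ball (r.1.2 + 1) fun j => (r.2 % ((j + 1) * c + 1) == g j r.1.2) := by
      have c1 : Computable fun r : ((ℕ × ℕ) × ℕ) × ℕ => r.1.1.1 :=
        Computable.fst.comp (Computable.fst.comp Computable.fst)
      have c2 : Computable fun r : ((ℕ × ℕ) × ℕ) × ℕ => r.1.1.2 :=
        Computable.snd.comp (Computable.fst.comp Computable.fst)
      have c3 : Computable fun r : ((ℕ × ℕ) × ℕ) × ℕ => r.1.2 :=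
        Computable.snd.comp Computable.fst
      exact cand (cbeqN c1 (cp_comp c2 (cp_comp c3 Computable.snd)))
        (ball_comp (cadd c2 (Computable.const 1)) h1)
    have h3 : Computable₂ fun (r : ℕ × ℕ) (t : ℕ) => bex (r.1 + 1) fun c =>
        (r.1 == cp r.2 (cp t c)) && ball (r.2 + 1) fun j => (t % ((j + 1) * c + 1) == g j r.2) :=
      bex_comp (cadd (Computable.fst.comp Computable.fst) (Computable.const 1)) h2
    have h4 : Computable₂ fun (m : ℕ) (n : ℕ) => bex (m + 1) fun t => bex (m + 1) fun c =>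
        (m == cp n (cp t c)) && ball (n + 1) fun j => (t % ((j + 1) * c + 1) == g j n) :=
      bex_comp (cadd Computable.fst (Computable.const 1)) h3
    exact bex_comp (cadd Computable.id (Computable.const 1)) h4
  have hqi : ∀ m, q m = true ↔ ∃ n t c, m = cp n (cp t c) ∧
      ∀ j ≤ n, t % ((j + 1) * c + 1) = g j n := by
    intro m
    simp only [q, bex_iff, Bool.and_eq_true, ball_iff, beq_iff_eq]
    constructor
    · rintro ⟨n, _, t, _, c, _, h, h'⟩
      exact ⟨n, t, c, h, fun j hj => h' j (Nat.lt_succ_of_le hj)⟩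
    · rintro ⟨n, t, c, h, h'⟩
      have h1 := le_cp_left n (cp t c)
      have h2 := le_cp_right n (cp t c)
      have h3 := le_cp_left t c
      have h4 := le_cp_right t c
      exact ⟨n, by omega, t, by omega, c, by omega, h, fun j hj => h' j (Nat.lt_succ_iff.1 hj)⟩
  have hre : REPred fun m => q m = true := by
    refine ComputablePred.to_re ?_
    refine ⟨inferInstance, ?_⟩
    refine hq.of_eq fun m => ?_
    simp
  obtain ⟨δ, hδ, p, hp⟩ := Pool.Agent.Helper948.ProP.Dio.finite_dummies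
    (Pool.Agent.Helper948.ProP.Dio.dprm hre)
  obtain ⟨A, B, hAB, hCR⟩ := cr_poly p
  refine ⟨δ, hδ, A, B, hCR, ?_⟩
  intro n t c
  have h1 := hp (fun _ => cp n (cp t c))
  have h2 : (fun _ : Unit => cp n (cp t c)) ∈ {v : Unit → ℕ | q (v ()) = true} ↔
      ∀ j ≤ n, t % ((j + 1) * c + 1) = g j n := by
    show q (cp n (cp t c)) = true ↔ _
    rw [hqi]
    constructor
    · rintro ⟨n', t', c', h, h'⟩
      obtain ⟨rfl, h3⟩ := cp_inj h
      obtain ⟨rfl, rfl⟩ := cp_inj h3
      exact h'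
    · intro h
      exact ⟨n, t, c, rfl, h⟩
  rw [← h2, h1]
  constructor
  · rintro ⟨x, hx⟩
    refine ⟨x, ?_⟩
    rw [hAB, hx]
    omega
  · rintro ⟨x, hx⟩
    refine ⟨x, ?_⟩
    have h3 := hAB (Sum.elim (fun _ => cp n (cp t c)) x)
    rw [hx] at h3
    omega

theorem two_mul_le' (a b : ℕ) : 2 * (a * b) ≤ a * a + b * b := by
  have h : (0 : ℤ) ≤ ((a : ℤ) - b) * ((a : ℤ) - b) := mul_self_nonneg _
  have h2 : (2 * (a * b) : ℤ) ≤ a * a + b * b := by nlinarith
  exact_mod_cast h2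

theorem eq_of_two_mul {a b : ℕ} (h : a * a + b * b ≤ 2 * (a * b)) : a = b := by
  have h1 : ((a : ℤ) - b) * ((a : ℤ) - b) ≤ 0 := by
    have : (a * a + b * b : ℤ) ≤ 2 * (a * b) := by exact_mod_cast h
    nlinarith
  have h2 : ((a : ℤ) - b) * ((a : ℤ) - b) = 0 := le_antisymm h1 (mul_self_nonneg _)
  have h3 : (a : ℤ) - b = 0 := by
    rcases mul_eq_zero.1 h2 with h | h <;> exact h
  omega

section

variable {δ : Type} (A B : ((Unit ⊕ δ) → ℕ) → ℕ)

/-- arguments of the polynomials -/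
def arg (j n' t c : ℕ) (x : δ → ℕ) : Unit ⊕ δ → ℕ := Sum.elim (fun _ => cp (j + n') (cp t c)) x

/-- left side -/
def Yv (j n' t c a d v : ℕ) (x : δ → ℕ) : ℕ :=
  (A (arg j n' t c x) * A (arg j n' t c x) + B (arg j n' t c x) * B (arg j n' t c x)) +
  (t * t + (a * ((j + 1) * c + 1) + v) * (a * ((j + 1) * c + 1) + v)) +
  (((j + n' + 1) * c) * ((j + n' + 1) * c) + (v + d + n' * c) * (v + d + n' * c))

/-- right side -/
def Zv (j n' t c a d v : ℕ) (x : δ → ℕ) : ℕ :=
  2 * (A (arg j n' t c x) * B (arg j n' t c x)) + 2 * (t * (a * ((j + 1) * c + 1) + v)) +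
  2 * (((j + n' + 1) * c) * (v + d + n' * c))

/-- the size -/
def sz (j n' m y' z' s t c a d v : ℕ) (x : δ → ℕ) : ℕ :=
  cp (cp (Yv A B j n' t c a d v x * m + s + y') (Zv A B j n' t c a d v x * m + s + z'))
    (cp (j + n') v) + 1

/-- main words -/
def mainC (g : ℕ → ℕ → ℕ) (i j n' m y' z' : ℕ) : Prop :=
  m = 1 ∧ y' = 0 ∧ z' = 0 ∧ (j = i ∨ (j + n' < i ∧ g i (j + n') = j))

/-- junk words -/
def junkC (m y' z' : ℕ) : Prop := m = 0 ∧ ((1 ≤ y' ∧ z' = 0) ∨ (y' = 0 ∧ 1 ≤ z'))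

/-- the set of sizes -/
def Sz (g : ℕ → ℕ → ℕ) (i : ℕ) : Set ℕ :=
  {k | ∃ (j n' m y' z' s t c a d v : ℕ) (x : δ → ℕ),
    (mainC g i j n' m y' z' ∨ junkC m y' z') ∧ k = sz A B j n' m y' z' s t c a d v x}

/-- thresholds -/
def Kset (n : ℕ) : Set ℕ :=
  {b | ∃ (t c s : ℕ) (x : δ → ℕ), A (arg n 0 t c x) = B (arg n 0 t c x) ∧
    b = 2 * (A (arg n 0 t c x) * A (arg n 0 t c x)) + 2 * (t * t) +
      2 * (((n + 1) * c) * ((n + 1) * c)) + s}

variable {A B}

theorem Sz_char {g : ℕ → ℕ → ℕ}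
    (hd : ∀ n t c, (∃ x : δ → ℕ, A (Sum.elim (fun _ => cp n (cp t c)) x) =
        B (Sum.elim (fun _ => cp n (cp t c)) x)) ↔ ∀ j ≤ n, t % ((j + 1) * c + 1) = g j n)
    (hle : ∀ y n, g y n ≤ n) (hgg : ∀ y n, g (g y n) n = g y n) (i : ℕ) :
    Sz A B g i = {k | ∃ y z n v, y ≠ z ∧ k = cp (cp y z) (cp n v) + 1} ∪
      {k | ∃ n b, b ∈ Kset A B n ∧ k = cp (cp b b) (cp n (g i n)) + 1} := by
  ext k
  constructor
  · rintro ⟨j, n', m, y', z', s, t, c, a, d, v, x, hreg, rfl⟩
    rcases hreg with ⟨rfl, rfl, rfl, hj⟩ | ⟨rfl, hyz⟩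
    · by_cases hYZ : Yv A B j n' t c a d v x = Zv A B j n' t c a d v x
      · right
        have hYZ' := hYZ
        unfold Yv Zv at hYZ'
        have e1 := two_mul_le' (A (arg j n' t c x)) (B (arg j n' t c x))
        have e2 := two_mul_le' t (a * ((j + 1) * c + 1) + v)
        have e3 := two_mul_le' ((j + n' + 1) * c) (v + d + n' * c)
        have f1 : A (arg j n' t c x) = B (arg j n' t c x) := eq_of_two_mul (by omega)
        have f2 : t = a * ((j + 1) * c + 1) + v := eq_of_two_mul (by omega)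
        have f3 : (j + n' + 1) * c = v + d + n' * c := eq_of_two_mul (by omega)
        have hv : v ≤ (j + 1) * c := by
          have : (j + n' + 1) * c = (j + 1) * c + n' * c := by ring
          omega
        have hmod : t % ((j + 1) * c + 1) = v := by
          rw [f2, Nat.mul_comm a, Nat.mul_add_mod]
          exact Nat.mod_eq_of_lt (by omega)
        have hg : v = g j (j + n') := by
          rw [← hmod]
          exact (hd (j + n') t c).1 ⟨x, f1⟩ j (by omega)
        have hgi : g i (j + n') = v := by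
          rcases hj with rfl | ⟨_, h2⟩
          · exact hg.symm
          · have h3 := hgg i (j + n')
            rw [h2] at h3
            rw [h2, hg, h3]
        have harg : arg (j + n') 0 t c x = arg j n' t c x := rfl
        refine ⟨j + n', Yv A B j n' t c a d v x * 1 + s + 0, ⟨t, c, s, x, ?_, ?_⟩, ?_⟩
        · rw [harg]; exact f1
        · rw [harg]
          unfold Yv
          rw [← f1, ← f2, ← f3]
          ring
        · unfold sz
          rw [← hYZ, hgi]
      · left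
        refine ⟨_, _, _, _, ?_, rfl⟩
        omega
    · left
      refine ⟨_, _, _, _, ?_, rfl⟩
      rcases hyz with ⟨h1, h2⟩ | ⟨h1, h2⟩ <;> omega
  · rintro (⟨y, z, n, v, hyz, rfl⟩ | ⟨n, b, ⟨t, c, s, x, hAB, rfl⟩, rfl⟩)
    · refine ⟨0, n, 0, y - z, z - y, min y z, 0, 0, 0, 0, v, fun _ => 0, Or.inr ⟨rfl, ?_⟩, ?_⟩
      · omega
      · unfold sz
        have h1 : Yv A B 0 n 0 0 0 0 v (fun _ => 0) * 0 + min y z + (y - z) = y := by omega
        have h2 : Zv A B 0 n 0 0 0 0 v (fun _ => 0) * 0 + min y z + (z - y) = z := by omega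
        rw [h1, h2, Nat.zero_add]
    · have hD := (hd n t c).1 ⟨x, hAB⟩
      -- the choice of j
      obtain ⟨j, hjn, hj, hgj⟩ : ∃ j ≤ n, (j = i ∨ (n < i ∧ g i n = j)) ∧ g j n = g i n := by
        by_cases hin : i ≤ n
        · exact ⟨i, hin, Or.inl rfl, rfl⟩
        · exact ⟨g i n, hle i n, Or.inr ⟨not_le.1 hin, rfl⟩, hgg i n⟩
      obtain ⟨n', rfl⟩ := Nat.exists_eq_add_of_le hjn
      have hmod := hD j hjn
      have hlt : t % ((j + 1) * c + 1) < (j + 1) * c + 1 := Nat.mod_lt _ (by omega)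
      have hdm := Nat.div_add_mod t ((j + 1) * c + 1)
      have harg : arg (j + n') 0 t c x = arg j n' t c x := rfl
      refine ⟨j, n', 1, 0, 0, s, t, c, t / ((j + 1) * c + 1),
        (j + 1) * c - t % ((j + 1) * c + 1), t % ((j + 1) * c + 1), x, Or.inl ⟨rfl, rfl, rfl, hj⟩, ?_⟩
      have f2 : t / ((j + 1) * c + 1) * ((j + 1) * c + 1) + t % ((j + 1) * c + 1) = t := by
        rw [Nat.mul_comm]; exact hdm
      have f3 : t % ((j + 1) * c + 1) + ((j + 1) * c - t % ((j + 1) * c + 1)) + n' * c =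
          (j + n' + 1) * c := by
        have : (j + n' + 1) * c = (j + 1) * c + n' * c := by ring
        omega
      rw [harg] at hAB ⊢
      unfold sz Yv Zv
      rw [f2, f3, ← hAB, hmod, hgj]
      congr 2
      congr 1 <;> ring

theorem Kset_nonempty {g : ℕ → ℕ → ℕ}
    (hd : ∀ n t c, (∃ x : δ → ℕ, A (Sum.elim (fun _ => cp n (cp t c)) x) =
        B (Sum.elim (fun _ => cp n (cp t c)) x)) ↔ ∀ j ≤ n, t % ((j + 1) * c + 1) = g j n)
    (n : ℕ) : (Kset A B n).Nonempty := by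
  obtain ⟨u, hu⟩ := Pool.Agent.Helper948.ProP.Dio.exists_beta n (fun j => g j n)
  obtain ⟨x, hx⟩ := (hd n u.unpair.1 u.unpair.2).2 (fun j hj => hu j hj)
  exact ⟨_, u.unpair.1, u.unpair.2, 0, x, hx, rfl⟩

theorem Sz_iff {g : ℕ → ℕ → ℕ}
    (hd : ∀ n t c, (∃ x : δ → ℕ, A (Sum.elim (fun _ => cp n (cp t c)) x) =
        B (Sum.elim (fun _ => cp n (cp t c)) x)) ↔ ∀ j ≤ n, t % ((j + 1) * c + 1) = g j n)
    (hle : ∀ y n, g y n ≤ n) (hgg : ∀ y n, g (g y n) n = g y n) (i i' : ℕ) :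
    Sz A B g i = Sz A B g i' ↔ ∀ n, g i n = g i' n := by
  constructor
  · intro h n
    obtain ⟨b, hb⟩ := Kset_nonempty hd n
    have h1 : cp (cp b b) (cp n (g i n)) + 1 ∈ Sz A B g i := by
      rw [Sz_char hd hle hgg]
      exact Or.inr ⟨n, b, hb, rfl⟩
    rw [h, Sz_char hd hle hgg] at h1
    rcases h1 with ⟨y, z, n', v, hyz, he⟩ | ⟨n', b', _, he⟩
    · obtain ⟨h2, _⟩ := cp_inj (Nat.succ.inj he)
      obtain ⟨rfl, rfl⟩ := cp_inj h2
      exact absurd rfl hyz
    · obtain ⟨_, h2⟩ := cp_inj (Nat.succ.inj he)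
      obtain ⟨rfl, h3⟩ := cp_inj h2
      exact h3
  · intro h
    rw [Sz_char hd hle hgg, Sz_char hd hle hgg]
    simp only [h]

end

end Pool.Agent.H448R4
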