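import Pool.Agent.H448R4.Struct
import Pool.Agent.H448R4.Size

set_option autoImplicit false

/-! Automata for the completeness part. -/

namespace Pool.Agent.H448R4

open Set Pool.Agent.H448R3

/-- acceptance by an automaton that is deterministic on `I` -/
theorem det_accepts {β : Type} (step : ℕ → β → Set ℕ) (s0 : ℕ) (Acc I : Set ℕ) (V : β → Prop)
    (f : ℕ → β → ℕ) (hI : s0 ∈ I) (h1 : ∀ q ∈ I, ∀ a, V a → step q a = {f q a} ∧ f q a ∈ I)
    (h2 : ∀ q ∈ I, ∀ a, ¬ V a → step q a = ∅) (w : List β) :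
    w ∈ (⟨step, {s0}, Acc⟩ : NFA β ℕ).accepts ↔ (∀ a ∈ w, V a) ∧ w.foldl f s0 ∈ Acc := by
  have h0 : ∀ w : List β, (w.foldl (⟨step, {s0}, Acc⟩ : NFA β ℕ).stepSet ∅ : Set ℕ) = ∅ := by
    intro w
    induction w with
    | nil => rfl
    | cons a w ih => rw [List.foldl_cons, NFA.stepSet_empty]; exact ih
  have key : ∀ (w : List β) (q : ℕ), q ∈ I →
      (((∀ a ∈ w, V a) ∧ (w.foldl (⟨step, {s0}, Acc⟩ : NFA β ℕ).stepSet {q} : Set ℕ) =
        {w.foldl f q}) ∨ ((¬ ∀ a ∈ w, V a) ∧
        (w.foldl (⟨step, {s0}, Acc⟩ : NFA β ℕ).stepSet {q} : Set ℕ) = ∅)) := by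
    intro w
    induction w with
    | nil => intro q _; left; exact ⟨fun a ha => absurd ha (by simp), rfl⟩
    | cons a w ih =>
      intro q hq
      have hs : (⟨step, {s0}, Acc⟩ : NFA β ℕ).stepSet {q} a = step q a := by
        simp [NFA.stepSet]
      rw [List.foldl_cons, hs]
      by_cases hV : V a
      · obtain ⟨h3, h4⟩ := h1 q hq a hV
        rw [h3, List.foldl_cons]
        rcases ih (f q a) h4 with ⟨h5, h6⟩ | ⟨h5, h6⟩
        · left
          refine ⟨?_, h6⟩
          intro b hb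
          rcases List.mem_cons.1 hb with rfl | hb
          · exact hV
          · exact h5 b hb
        · right
          refine ⟨fun h => h5 fun b hb => h b (List.mem_cons_of_mem _ hb), h6⟩
      · right
        rw [h2 q hq a hV]
        exact ⟨fun h => hV (h a List.mem_cons_self), h0 w⟩
  show (∃ S ∈ Acc, S ∈ (w.foldl (⟨step, {s0}, Acc⟩ : NFA β ℕ).stepSet {s0} : Set ℕ)) ↔ _
  rcases key w s0 hI with ⟨h3, h4⟩ | ⟨h3, h4⟩
  · rw [h4]
    constructor
    · rintro ⟨S, hS, hS'⟩
      rw [mem_singleton_iff] at hS'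
      subst hS'
      exact ⟨h3, hS⟩
    · rintro ⟨_, h5⟩
      exact ⟨_, h5, rfl⟩
  · rw [h4]
    constructor
    · rintro ⟨S, _, hS'⟩
      exact absurd hS' (notMem_empty _)
    · rintro ⟨h5, _⟩
      exact absurd h5 h3

theorem decode_finset {β : Type} [Encodable β] (l : List β) (h : l.Nodup) :
    ∃ s : Finset β, (Encodable.decode (Encodable.encode l) : Option (Finset β)) = some s ∧
      ∀ x, x ∈ s ↔ x ∈ l := by
  let _ : DecidableEq β := Encodable.decidableEqOfEncodable β
  refine ⟨⟨(l : Multiset β), h⟩, ?_, fun x => Iff.rfl⟩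
  have h1 : (Encodable.decode (Encodable.encode l) : Option (Multiset β)) = some (l : Multiset β) := by
    show ((↑) : List β → Multiset β) <$> (Encodable.decode (Encodable.encode l) : Option (List β)) = _
    rw [Encodable.encodek]; rfl
  have h2 : (Encodable.decode (Encodable.encode l) : Option {s : Multiset β // s.Nodup}) =
      some ⟨(l : Multiset β), h⟩ := by
    have h3 : (Encodable.decode (Encodable.encode l) : Option {s : Multiset β // s.Nodup}) =
      (Encodable.decode (Encodable.encode l) : Option (Multiset β)).bind (fun a : Multiset β =>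
        if h : a.Nodup then some (⟨a, h⟩ : {s : Multiset β // s.Nodup}) else none) := rfl
    rw [h3, h1, Option.bind_some, dif_pos (show (l : Multiset β).Nodup from h)]
  have h4 := @Encodable.decode_ofEquiv {s : Multiset β // s.Nodup} (Finset β) _
      { toFun := fun ⟨a, b⟩ => ⟨a, b⟩
        invFun := fun ⟨a, b⟩ => ⟨a, b⟩ } (Encodable.encode l)
  refine Eq.trans h4 ?_
  rw [h2]
  rfl

/-- filtering an initial segment -/
def rfilter (n : ℕ) (q : ℕ → Bool) : List ℕ :=
  Nat.rec (motive := fun _ => List ℕ) [] (fun k acc => bif q k then acc ++ [k] else acc) n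

theorem rfilter_succ (n : ℕ) (q : ℕ → Bool) :
    rfilter (n + 1) q = bif q n then rfilter n q ++ [n] else rfilter n q := rfl

theorem mem_rfilter (n : ℕ) (q : ℕ → Bool) (x : ℕ) : x ∈ rfilter n q ↔ x < n ∧ q x = true := by
  induction n with
  | zero => simp [rfilter]
  | succ n ih =>
    rw [rfilter_succ]
    rcases h : q n with _ | _
    · rw [cond_false, ih]
      constructor
      · rintro ⟨h1, h2⟩; exact ⟨by omega, h2⟩
      · rintro ⟨h1, h2⟩
        refine ⟨?_, h2⟩
        rcases Nat.lt_succ_iff_lt_or_eq.1 h1 with h3 | h3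
        · exact h3
        · subst h3; rw [h] at h2; exact absurd h2 (by simp)
    · rw [cond_true, List.mem_append, ih, List.mem_singleton]
      constructor
      · rintro (⟨h1, h2⟩ | h1)
        · exact ⟨by omega, h2⟩
        · subst h1; exact ⟨by omega, h⟩
      · rintro ⟨h1, h2⟩
        rcases Nat.lt_succ_iff_lt_or_eq.1 h1 with h3 | h3
        · exact Or.inl ⟨h3, h2⟩
        · exact Or.inr h3

theorem nodup_rfilter (n : ℕ) (q : ℕ → Bool) : (rfilter n q).Nodup := by
  induction n with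
  | zero => exact List.nodup_nil
  | succ n ih =>
    rw [rfilter_succ]
    rcases h : q n with _ | _
    · exact ih
    · rw [cond_true, List.nodup_append]
      refine ⟨ih, List.nodup_singleton _, ?_⟩
      intro a ha b hb
      rw [List.mem_singleton] at hb
      have := ((mem_rfilter n q a).1 ha).1
      omega

theorem rfilter_comp {β : Type} [Primcodable β] {n : β → ℕ} {q : β → ℕ → Bool}
    (hn : Computable n) (hq : Computable₂ q) : Computable fun a => rfilter (n a) (q a) := by
  have h3 : Computable₂ fun (a : β) (p : ℕ × List ℕ) => bif q a p.1 then p.2 ++ [p.1] else p.2 := by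
    have c1 : Computable fun r : β × (ℕ × List ℕ) => r.2.1 := Computable.fst.comp Computable.snd
    have c2 : Computable fun r : β × (ℕ × List ℕ) => r.2.2 := Computable.snd.comp Computable.snd
    exact Computable.cond (hq.comp Computable.fst c1) (Computable.list_concat.comp c2 c1) c2
  exact (Computable.nat_rec hn (Computable.const []) h3).of_eq fun a => rfl

section

variable (nL : ℕ) (tbl : List ℕ) (z0 z1 Fj Fm : List Bool) (g : ℕ → ℕ → ℕ) (nτ : ℕ)

/-- the transition function of the domain automaton -/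
def stepD (i q l : ℕ) : ℕ :=
  Nat.pair (tbl.getD (q.unpair.1 * nL + l) 0)
    (Nat.pair
      (bif z0.getD l false then min (q.unpair.2.unpair.1 + 1) (i + 1) else q.unpair.2.unpair.1)
      (bif z1.getD l false then min (q.unpair.2.unpair.2 + 1) i else q.unpair.2.unpair.2))

/-- bound for the states -/
def Bnd (i : ℕ) : ℕ := (nτ + i + 3) * (nτ + i + 3) * ((nτ + i + 3) * (nτ + i + 3))

/-- the transitions -/
def transD (i : ℕ) : List (ℕ × ℕ × ℕ) :=
  (List.range (Bnd nτ i * nL)).map fun z => (z / nL, z % nL, stepD nL tbl z0 z1 i (z / nL) (z % nL))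

/-- acceptance -/
def faccD (i q : ℕ) : Bool :=
  Fj.getD q.unpair.1 false || (Fm.getD q.unpair.1 false && ((q.unpair.2.unpair.1 == i) ||
    (decide (q.unpair.2.unpair.1 + q.unpair.2.unpair.2 < i) &&
      (g i (q.unpair.2.unpair.1 + q.unpair.2.unpair.2) == q.unpair.2.unpair.1))))

/-- accepting states -/
def accD (i : ℕ) : List ℕ := rfilter (Bnd nτ i) (faccD Fj Fm g i)

theorem mem_transD (i q l q' : ℕ) : (q, l, q') ∈ transD nL tbl z0 z1 nτ i ↔
    q < Bnd nτ i ∧ l < nL ∧ q' = stepD nL tbl z0 z1 i q l := by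
  unfold transD
  simp only [List.mem_map, List.mem_range, Prod.mk.injEq]
  constructor
  · rintro ⟨z, hz, rfl, rfl, rfl⟩
    have hn : 0 < nL := by
      rcases Nat.eq_zero_or_pos nL with h | h
      · subst h; simp at hz
      · exact h
    refine ⟨?_, Nat.mod_lt _ hn, rfl⟩
    rw [Nat.mul_comm] at hz
    exact Nat.div_lt_of_lt_mul hz
  · rintro ⟨h1, h2, rfl⟩
    have hn : 0 < nL := by omega
    refine ⟨q * nL + l, ?_, ?_, ?_, ?_⟩
    · calc q * nL + l < q * nL + nL := by omega
        _ = (q + 1) * nL := by ring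
        _ ≤ Bnd nτ i * nL := Nat.mul_le_mul_right _ h1
    · rw [Nat.mul_comm, Nat.mul_add_div hn, Nat.div_eq_of_lt h2, Nat.add_zero]
    · rw [Nat.mul_comm, Nat.mul_add_mod, Nat.mod_eq_of_lt h2]
    · have e1 : (q * nL + l) / nL = q := by
        rw [Nat.mul_comm, Nat.mul_add_div hn, Nat.div_eq_of_lt h2, Nat.add_zero]
      have e2 : (q * nL + l) % nL = l := by
        rw [Nat.mul_comm, Nat.mul_add_mod, Nat.mod_eq_of_lt h2]
      rw [e1, e2]

theorem nodup_transD (i : ℕ) : (transD nL tbl z0 z1 nτ i).Nodup := by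
  unfold transD
  refine List.Nodup.map ?_ List.nodup_range
  intro a b hab
  simp only [Prod.mk.injEq] at hab
  rw [← Nat.div_add_mod a nL, ← Nat.div_add_mod b nL, hab.1, hab.2.1]

theorem pair_lt {a b M : ℕ} (ha : a < M) (hb : b < M) : Nat.pair a b < M * M := by
  have h1 := Nat.pair_lt_max_add_one_sq a b
  have h2 : max a b + 1 ≤ M := by omega
  have h3 : (max a b + 1) ^ 2 ≤ M * M := by rw [pow_two]; exact Nat.mul_le_mul h2 h2
  omega

theorem state_lt {i a c d : ℕ} (ha : a < nτ) (hc : c ≤ i + 1) (hd : d ≤ i) :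
    Nat.pair a (Nat.pair c d) < Bnd nτ i := by
  unfold Bnd
  have h1 : Nat.pair c d < (nτ + i + 3) * (nτ + i + 3) := pair_lt (by omega) (by omega)
  refine pair_lt ?_ h1
  exact lt_of_lt_of_le (by omega : a < nτ + i + 3) (Nat.le_mul_self _)

theorem stepD_prim : Primrec fun r : ℕ × ℕ × ℕ => stepD nL tbl z0 z1 r.1 r.2.1 r.2.2 := by
  have ci : Primrec fun r : ℕ × ℕ × ℕ => r.1 := Primrec.fst
  have cq : Primrec fun r : ℕ × ℕ × ℕ => r.2.1 := Primrec.fst.comp Primrec.snd
  have cl : Primrec fun r : ℕ × ℕ × ℕ => r.2.2 := Primrec.snd.comp Primrec.snd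
  have q1 : Primrec fun r : ℕ × ℕ × ℕ => r.2.1.unpair.1 := Primrec.fst.comp (Primrec.unpair.comp cq)
  have q2 : Primrec fun r : ℕ × ℕ × ℕ => r.2.1.unpair.2.unpair.1 :=
    Primrec.fst.comp (Primrec.unpair.comp (Primrec.snd.comp (Primrec.unpair.comp cq)))
  have q3 : Primrec fun r : ℕ × ℕ × ℕ => r.2.1.unpair.2.unpair.2 :=
    Primrec.snd.comp (Primrec.unpair.comp (Primrec.snd.comp (Primrec.unpair.comp cq)))
  have t1 : Primrec fun r : ℕ × ℕ × ℕ => tbl.getD (r.2.1.unpair.1 * nL + r.2.2) 0 :=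
    (Primrec.list_getD 0).comp (Primrec.const tbl)
      (Primrec.nat_add.comp (Primrec.nat_mul.comp q1 (Primrec.const nL)) cl)
  have b1 : Primrec fun r : ℕ × ℕ × ℕ => z0.getD r.2.2 false :=
    (Primrec.list_getD false).comp (Primrec.const z0) cl
  have b2 : Primrec fun r : ℕ × ℕ × ℕ => z1.getD r.2.2 false :=
    (Primrec.list_getD false).comp (Primrec.const z1) cl
  have m1 : Primrec fun r : ℕ × ℕ × ℕ => min (r.2.1.unpair.2.unpair.1 + 1) (r.1 + 1) :=
    Primrec.nat_min.comp (Primrec.succ.comp q2) (Primrec.succ.comp ci)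
  have m2 : Primrec fun r : ℕ × ℕ × ℕ => min (r.2.1.unpair.2.unpair.2 + 1) r.1 :=
    Primrec.nat_min.comp (Primrec.succ.comp q3) ci
  exact Primrec₂.natPair.comp t1 (Primrec₂.natPair.comp (Primrec.cond b1 m1 q2)
    (Primrec.cond b2 m2 q3))

theorem Bnd_prim : Primrec (Bnd nτ) := by
  have h1 : Primrec fun i : ℕ => nτ + i + 3 :=
    Primrec.nat_add.comp (Primrec.nat_add.comp (Primrec.const nτ) Primrec.id) (Primrec.const 3)
  have h2 := Primrec.nat_mul.comp h1 h1
  exact Primrec.nat_mul.comp h2 h2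

theorem transD_comp : Computable (transD nL tbl z0 z1 nτ) := by
  have h1 : Primrec fun i : ℕ => List.range (Bnd nτ i * nL) :=
    Primrec.list_range.comp (Primrec.nat_mul.comp (Bnd_prim nτ) (Primrec.const nL))
  have d1 : Primrec fun r : ℕ × ℕ => r.2 / nL := Primrec.nat_div.comp Primrec.snd (Primrec.const nL)
  have d2 : Primrec fun r : ℕ × ℕ => r.2 % nL := Primrec.nat_mod.comp Primrec.snd (Primrec.const nL)
  have d3 : Primrec fun r : ℕ × ℕ => ((r.1, r.2 / nL, r.2 % nL) : ℕ × ℕ × ℕ) :=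
    Primrec.pair Primrec.fst (Primrec.pair d1 d2)
  have d4 : Primrec fun r : ℕ × ℕ => stepD nL tbl z0 z1 r.1 (r.2 / nL) (r.2 % nL) :=
    Primrec.of_eq ((stepD_prim nL tbl z0 z1).comp d3) (fun r => rfl)
  have d5 : Primrec fun r : ℕ × ℕ =>
      ((r.2 / nL, r.2 % nL, stepD nL tbl z0 z1 r.1 (r.2 / nL) (r.2 % nL)) : ℕ × ℕ × ℕ) :=
    Primrec.pair d1 (Primrec.pair d2 d4)
  have h2 : Primrec₂ fun (i z : ℕ) =>
      ((z / nL, z % nL, stepD nL tbl z0 z1 i (z / nL) (z % nL)) : ℕ × ℕ × ℕ) := d5.to₂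
  exact (Primrec.list_map h1 h2).to_comp

theorem accD_comp (hg : Computable₂ g) : Computable (accD Fj Fm g nτ) := by
  have h1 : Computable₂ (faccD Fj Fm g) := by
    have ci : Computable fun r : ℕ × ℕ => r.1 := Computable.fst
    have cq : Computable fun r : ℕ × ℕ => r.2 := Computable.snd
    have q1 : Computable fun r : ℕ × ℕ => r.2.unpair.1 :=
      Computable.fst.comp (Computable.unpair.comp cq)
    have q2 : Computable fun r : ℕ × ℕ => r.2.unpair.2.unpair.1 :=
      Computable.fst.comp (Computable.unpair.comp (Computable.snd.comp (Computable.unpair.comp cq)))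
    have q3 : Computable fun r : ℕ × ℕ => r.2.unpair.2.unpair.2 :=
      Computable.snd.comp (Computable.unpair.comp (Computable.snd.comp (Computable.unpair.comp cq)))
    have b1 : Computable fun r : ℕ × ℕ => Fj.getD r.2.unpair.1 false :=
      (Primrec.list_getD false).to_comp.comp (Computable.const Fj) q1
    have b2 : Computable fun r : ℕ × ℕ => Fm.getD r.2.unpair.1 false :=
      (Primrec.list_getD false).to_comp.comp (Computable.const Fm) q1
    exact cor b1 (cand b2 (cor (cbeqN q2 ci) (cand (clt (cadd q2 q3) ci)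
      (cbeqN (hg.comp ci (cadd q2 q3)) q2))))
  exact rfilter_comp (Bnd_prim nτ).to_comp h1

end

end Pool.Agent.H448R4
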