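import Pool.Agent.H448R4.CR
import Pool.Agent.H448R4.Iso

set_option autoImplicit false

/-! The equivalence structure of a counting automaton. -/

namespace Pool.Agent.H448R4

open Set

section

variable {α σ Γ : Type} [Fintype α] [Fintype Γ] [DecidableEq α] [DecidableEq Γ]
variable (δ : σ → α → Γ → σ) (F : σ → Bool)

/-- the accepted labelled words -/
def lab : List α → σ → Finset (List (α × Γ))
  | [], q => if F q = true then {[]} else ∅
  | a :: w, q => Finset.univ.biUnion fun γ : Γ =>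
      (lab w (δ q a γ)).map ⟨List.cons (a, γ), fun _ _ h => (List.cons.inj h).2⟩

/-- the run on a labelled word -/
def run (q : σ) (u : List (α × Γ)) : σ := u.foldl (fun s p => δ s p.1 p.2) q

theorem mem_lab (w : List α) (q : σ) (u : List (α × Γ)) :
    u ∈ lab δ F w q ↔ u.map Prod.fst = w ∧ F (run δ q u) = true := by
  induction w generalizing q u with
  | nil =>
    simp only [lab]
    split_ifs with h
    · rw [Finset.mem_singleton]
      constructor
      · rintro rfl; exact ⟨rfl, h⟩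
      · rintro ⟨h1, _⟩; exact List.map_eq_nil_iff.1 h1
    · constructor
      · intro h'; exact absurd h' (Finset.notMem_empty _)
      · rintro ⟨h1, h2⟩
        rw [List.map_eq_nil_iff.1 h1] at h2
        exact absurd h2 h
  | cons a w ih =>
    simp only [lab, Finset.mem_biUnion, Finset.mem_univ, true_and, Finset.mem_map]
    constructor
    · rintro ⟨γ, u', hu', rfl⟩
      have := (ih _ _).1 hu'
      refine ⟨?_, this.2⟩
      show a :: u'.map Prod.fst = _
      rw [this.1]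
    · rintro ⟨h1, h2⟩
      rcases u with _ | ⟨⟨b, γ⟩, u'⟩
      · exact absurd h1 (by simp)
      · simp only [List.map_cons, List.cons.injEq] at h1
        obtain ⟨rfl, h1⟩ := h1
        exact ⟨γ, u', (ih _ _).2 ⟨h1, h2⟩, rfl⟩

theorem card_lab (w : List α) (q : σ) : (lab δ F w q).card = cntW δ F w q := by
  induction w generalizing q with
  | nil =>
    simp only [lab, cntW]
    split_ifs <;> rfl
  | cons a w ih =>
    simp only [lab, cntW]
    rw [Finset.card_biUnion]
    · exact Finset.sum_congr rfl fun γ _ => by rw [Finset.card_map, ih]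
    · intro γ _ γ' _ hne
      rw [Function.onFun, Finset.disjoint_left]
      intro u hu hu'
      simp only [Finset.mem_map] at hu hu'
      obtain ⟨v, _, rfl⟩ := hu
      obtain ⟨v', _, he⟩ := hu'
      have h1 := (List.cons.inj he).1
      exact hne (congrArg Prod.snd h1).symm

variable {nL : ℕ} (eL : α × Γ ≃ Fin nL) (q0 : σ)

/-- letters as numbers -/
def code (u : List (α × Γ)) : List ℕ := u.map fun p => (eL p : ℕ)

theorem code_inj {u v : List (α × Γ)} (h : code eL u = code eL v) : u = v := by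
  have hinj : Function.Injective fun p : α × Γ => (eL p : ℕ) := fun a b hab =>
    eL.injective (Fin.ext hab)
  exact List.map_injective_iff.2 hinj h

/-- the domain -/
def Dset (Reg : Set (List α)) : Set (List ℕ) :=
  {x | ∃ u : List (α × Γ), x = code eL u ∧ F (run δ q0 u) = true ∧ u.map Prod.fst ∈ Reg}

/-- the relation -/
def Rr (x y : List ℕ) : Prop :=
  ∃ u v : List (α × Γ), x = code eL u ∧ y = code eL v ∧ u.map Prod.fst = v.map Prod.fst

theorem eqOn_Rr (Reg : Set (List α)) : EqOn' (Dset δ F eL q0 Reg) (Rr eL) := by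
  refine ⟨?_, ?_, ?_⟩
  · rintro _ ⟨u, rfl, _⟩
    exact ⟨u, u, rfl, rfl, rfl⟩
  · rintro x _ y _ ⟨u, v, h1, h2, h3⟩
    exact ⟨v, u, h2, h1, h3.symm⟩
  · rintro x _ y _ z _ ⟨u, v, h1, h2, h3⟩ ⟨u', v', h1', h2', h3'⟩
    have : v = u' := code_inj eL (h2.symm.trans h1')
    subst this
    exact ⟨u, v', h1, h2', h3.trans h3'⟩

theorem cls_Rr {Reg : Set (List α)} {u : List (α × Γ)} (hR : u.map Prod.fst ∈ Reg) :
    cls (Dset δ F eL q0 Reg) (Rr eL) (code eL u) =
      code eL '' (lab δ F (u.map Prod.fst) q0 : Set (List (α × Γ))) := by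
  ext x
  constructor
  · rintro ⟨⟨v, rfl, h1, h2⟩, ⟨u', v', h3, h4, h5⟩⟩
    have e1 := code_inj eL h3
    have e2 := code_inj eL h4
    subst e1; subst e2
    exact ⟨v, (mem_lab δ F _ _ _).2 ⟨h5.symm, h1⟩, rfl⟩
  · rintro ⟨v, hv, rfl⟩
    have h1 := (mem_lab δ F _ _ _).1 hv
    exact ⟨⟨v, rfl, h1.2, by rw [h1.1]; exact hR⟩, ⟨u, v, rfl, rfl, h1.1.symm⟩⟩

theorem cls_encard {Reg : Set (List α)} {u : List (α × Γ)} (hR : u.map Prod.fst ∈ Reg) :
    (cls (Dset δ F eL q0 Reg) (Rr eL) (code eL u)).encard =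
      (cntW δ F (u.map Prod.fst) q0 : ℕ∞) := by
  rw [cls_Rr δ F eL q0 hR]
  rw [Function.Injective.encard_image (fun a b h => code_inj eL h), Set.encard_coe_eq_coe_finsetCard,
    card_lab]

theorem clset_encard {Reg : Set (List α)}
    (hinf : ∀ w ∈ Reg, ∃ f : ℕ → List α, Function.Injective f ∧
      ∀ n, f n ∈ Reg ∧ cntW δ F (f n) q0 = cntW δ F w q0) (κ : ℕ∞) :
    (clset (Dset δ F eL q0 Reg) (Rr eL) κ).encard = ⊤ ∧
      (∃ w ∈ Reg, cntW δ F w q0 ≠ 0 ∧ (cntW δ F w q0 : ℕ∞) = κ) ∨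
    (clset (Dset δ F eL q0 Reg) (Rr eL) κ).encard = 0 ∧
      ¬ (∃ w ∈ Reg, cntW δ F w q0 ≠ 0 ∧ (cntW δ F w q0 : ℕ∞) = κ) := by
  by_cases h : ∃ w ∈ Reg, cntW δ F w q0 ≠ 0 ∧ (cntW δ F w q0 : ℕ∞) = κ
  · left
    refine ⟨?_, h⟩
    obtain ⟨w, hw, h0, hκ⟩ := h
    obtain ⟨f, hf, hf2⟩ := hinf w hw
    have hne : ∀ n, ∃ u, u ∈ lab δ F (f n) q0 := by
      intro n
      have : (lab δ F (f n) q0).Nonempty := by
        rw [← Finset.card_pos, card_lab, (hf2 n).2]
        exact Nat.pos_of_ne_zero h0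
      exact this
    choose u hu using hne
    have hu1 : ∀ n, (u n).map Prod.fst = f n := fun n => ((mem_lab δ F _ _ _).1 (hu n)).1
    have hu2 : ∀ n, F (run δ q0 (u n)) = true := fun n => ((mem_lab δ F _ _ _).1 (hu n)).2
    rw [Set.encard_eq_top_iff]
    refine Set.infinite_of_injective_forall_mem
      (f := fun n => cls (Dset δ F eL q0 Reg) (Rr eL) (code eL (u n))) ?_ ?_
    · intro n m hnm
      have hD : ∀ n, code eL (u n) ∈ Dset δ F eL q0 Reg := fun n =>
        ⟨u n, rfl, hu2 n, by rw [hu1 n]; exact (hf2 n).1⟩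
      have h1 := (cls_eq (eqOn_Rr δ F eL q0 Reg) (hD n) (hD m)).1 hnm
      obtain ⟨a, b, e1, e2, e3⟩ := h1
      have e1' := code_inj eL e1
      have e2' := code_inj eL e2
      rw [← e1', ← e2', hu1, hu1] at e3
      exact hf e3
    · intro n
      have hR : (u n).map Prod.fst ∈ Reg := by rw [hu1 n]; exact (hf2 n).1
      refine ⟨code eL (u n), ⟨u n, rfl, hu2 n, hR⟩, rfl, ?_⟩
      rw [cls_encard δ F eL q0 hR, hu1 n, (hf2 n).2, hκ]
  · right
    refine ⟨?_, h⟩
    rw [Set.encard_eq_zero, Set.eq_empty_iff_forall_notMem]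
    rintro C ⟨x, ⟨u, rfl, hu1, hu2⟩, rfl, hκ⟩
    rw [cls_encard δ F eL q0 hu2] at hκ
    refine h ⟨_, hu2, ?_, hκ⟩
    have : u ∈ lab δ F (u.map Prod.fst) q0 := (mem_lab δ F _ _ _).2 ⟨rfl, hu1⟩
    rw [← card_lab]
    exact (Finset.card_pos.2 ⟨u, this⟩).ne'

end

end Pool.Agent.H448R4
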